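import Mathlib

/-!
# MP_4d259d_ag, block EX: infinite concatenation of homotopies
-/

noncomputable section

set_option linter.unusedSectionVars false

namespace Pool.Agent.W_4d259d_h80

open Set Filter Topology Metric
open scoped unitInterval

section

variable {R : Type*} [TopologicalSpace R]
variable {X : Type*} [MetricSpace X]

/-- the parameter on the `n`-th piece -/
def homTau (n : ℕ) (s : NNReal) : I :=
  ⟨((min 1 (s - n) : NNReal) : ℝ), NNReal.coe_nonneg _, by
    have : (min 1 (s - n) : NNReal) ≤ 1 := min_le_left _ _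
    exact_mod_cast this⟩

theorem homTau_cont (n : ℕ) : Continuous (homTau n) := by
  unfold homTau
  refine Continuous.subtype_mk ?_ _
  exact NNReal.continuous_coe.comp (continuous_const.min (continuous_id.sub continuous_const))

/-- The concatenation of the homotopies `H n : g n ~ g (n+1)` on `[0, ∞) × R`, `H n` used on
`[n, n+1]`: `G (s, z) = H ⌊s⌋ (fract s, z)`; continuous by `LocallyFinite.continuous` with the
closed sets `[n, n+1] × R`. -/
theorem exists_concat (g : ℕ → C(R, X)) (H : ∀ j, ContinuousMap.Homotopy (g j) (g (j + 1))) :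
    ∃ G : C(NNReal × R, X), (∀ z, G (0, z) = g 0 z) ∧
      ∀ (s : NNReal) (z : R), ∃ t : I, G (s, z) = H ⌊s⌋₊ (t, z) := by
  have hcont : Continuous fun q : NNReal × R => H ⌊q.1⌋₊ (homTau ⌊q.1⌋₊ q.1, q.2) := by
    refine LocallyFinite.continuous
      (f := fun n : ℕ => {q : NNReal × R | (n : NNReal) ≤ q.1 ∧ q.1 ≤ n + 1}) ?_ ?_ ?_ ?_
    · intro q
      refine ⟨{p | p.1 < q.1 + 1}, (isOpen_lt continuous_fst continuous_const).mem_nhds
        (show q.1 < q.1 + 1 by simp), ?_⟩
      refine (Set.finite_le_nat ⌈q.1 + 1⌉₊).subset ?_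
      rintro n ⟨p, ⟨h1, -⟩, h2⟩
      have h3 : (n : NNReal) < q.1 + 1 := lt_of_le_of_lt h1 h2
      have h4 : (n : NNReal) ≤ (⌈q.1 + 1⌉₊ : NNReal) := h3.le.trans (Nat.le_ceil _)
      exact_mod_cast h4
    · refine Set.eq_univ_of_forall fun q => ?_
      rw [Set.mem_iUnion]
      exact ⟨⌊q.1⌋₊, Nat.floor_le (bot_le (a := q.1)), (Nat.lt_floor_add_one _).le⟩
    · intro n
      have c1 : IsClosed {q : NNReal × R | (n : NNReal) ≤ q.1} :=
        isClosed_Ici.preimage continuous_fst
      have c2 : IsClosed {q : NNReal × R | q.1 ≤ (n : NNReal) + 1} :=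
        isClosed_Iic.preimage continuous_fst
      exact c1.inter c2
    · intro n
      have h1 : Continuous fun q : NNReal × R => H n (homTau n q.1, q.2) :=
        (H n).continuous.comp (((homTau_cont n).comp continuous_fst).prodMk continuous_snd)
      refine h1.continuousOn.congr ?_
      rintro ⟨s, z⟩ ⟨hs1, hs2⟩
      simp only at hs1 hs2 ⊢
      rcases hs2.lt_or_eq with hs3 | hs3
      · have h2 : ⌊s⌋₊ = n := (Nat.floor_eq_iff (bot_le (a := s))).2 ⟨hs1, hs3⟩
        rw [h2]
      · subst hs3
        have h2 : ⌊((n : NNReal) + 1)⌋₊ = n + 1 := by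
          have : ((n : NNReal) + 1) = ((n + 1 : ℕ) : NNReal) := by push_cast; rfl
          rw [this, Nat.floor_natCast]
        rw [h2]
        have h3 : homTau (n + 1) ((n : NNReal) + 1) = 0 := by
          apply Subtype.ext
          simp [homTau]
        have h4 : homTau n ((n : NNReal) + 1) = 1 := by
          apply Subtype.ext
          simp [homTau]
        rw [h3, h4, ContinuousMap.Homotopy.apply_zero, ContinuousMap.Homotopy.apply_one]
  refine ⟨⟨_, hcont⟩, fun z => ?_, fun s z => ⟨homTau ⌊s⌋₊ s, rfl⟩⟩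
  have h0 : homTau 0 0 = 0 := by
    apply Subtype.ext
    simp [homTau]
  have h1 : ⌊(0 : NNReal)⌋₊ = 0 := Nat.floor_zero
  simp only [ContinuousMap.coe_mk]
  rw [h1, h0, ContinuousMap.Homotopy.apply_zero]

/-- If the homotopies `H n` are smaller and smaller on the sets `L n` then `g 0` is homotopic to
the limit `F`: `(t, z) ↦ G (t / (1 - t), z)` for `t < 1`, `F z` for `t = 1`. -/
theorem homotopic_limit {L : ℕ → Set R} (hLi : ∀ j, L j ⊆ interior (L (j + 1)))
    (hLu : (⋃ j, L j) = univ) {ε : ℝ} (hε : 0 < ε) (g : ℕ → C(R, X))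
    (hH : ∀ j, ∃ H : ContinuousMap.Homotopy (g j) (g (j + 1)),
      ∀ t, ∀ z ∈ L j, dist (H (t, z)) (g j z) < ε / 2 ^ (j + 2)) (F : C(R, X))
    (hF : ∀ j, ∀ z ∈ L j, dist (F z) (g j z) ≤ ε / 2 ^ (j + 1)) : F.Homotopic (g 0) := by
  choose H hH using hH
  obtain ⟨G, hG0, hG⟩ := exists_concat g H
  have hmono : Monotone L := monotone_nat_of_le_succ fun j => (hLi j).trans interior_subset
  let Φ : I × R → X := fun q =>
    if (q.1 : ℝ) < 1 then G (Real.toNNReal ((q.1 : ℝ) / (1 - q.1)), q.2) else F q.2
  have hcont : Continuous Φ := by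
    rw [continuous_iff_continuousAt]
    rintro ⟨t, z⟩
    by_cases ht : (t : ℝ) < 1
    · have hopen : {q : I × R | (q.1 : ℝ) < 1} ∈ 𝓝 (t, z) :=
        (isOpen_lt (continuous_subtype_val.comp continuous_fst) continuous_const).mem_nhds ht
      have h1 : ContinuousAt (fun q : I × R =>
          G (Real.toNNReal ((q.1 : ℝ) / (1 - q.1)), q.2)) (t, z) := by
        refine G.continuous.continuousAt.comp ?_
        refine ContinuousAt.prodMk ?_ continuousAt_snd
        refine continuous_real_toNNReal.continuousAt.comp ?_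
        have h2 : ContinuousAt (fun q : I × R => (q.1 : ℝ)) (t, z) :=
          (continuous_subtype_val.comp continuous_fst).continuousAt
        refine h2.div (continuousAt_const.sub h2) ?_
        simp only
        linarith [sub_pos.2 ht]
      refine h1.congr ?_
      filter_upwards [hopen] with q hq
      simp only [Φ]
      rw [if_pos hq]
    · have ht1 : (t : ℝ) = 1 := le_antisymm t.2.2 (not_lt.1 ht)
      have hΦ1 : Φ (t, z) = F z := by
        simp only [Φ]
        rw [if_neg ht]
      rw [ContinuousAt, hΦ1, Metric.tendsto_nhds]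
      intro η hη
      obtain ⟨j, hj⟩ : ∃ j, z ∈ L j := by
        have : z ∈ ⋃ j, L j := by rw [hLu]; trivial
        exact Set.mem_iUnion.1 this
      obtain ⟨k0, hk0⟩ : ∃ k : ℕ, ε / 2 ^ k < η / 2 := by
        obtain ⟨k, hk⟩ := exists_pow_lt_of_lt_one (show 0 < η / 2 / ε by positivity)
          (show (1 / 2 : ℝ) < 1 by norm_num)
        refine ⟨k, ?_⟩
        rw [lt_div_iff₀ hε] at hk
        rw [one_div, inv_pow] at hk
        rw [div_eq_mul_inv, mul_comm]
        exact hk
      set k := max k0 (j + 1) with hk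
      have hkη : ε / 2 ^ k < η / 2 := by
        refine lt_of_le_of_lt ?_ hk0
        exact div_le_div_of_nonneg_left hε.le (by positivity)
          (pow_le_pow_right₀ (by norm_num) (le_max_left _ _))
      have hU1 : {q : I × R | (k : ℝ) / (k + 1) < (q.1 : ℝ)} ∈ 𝓝 (t, z) := by
        refine (isOpen_lt continuous_const
          (continuous_subtype_val.comp continuous_fst)).mem_nhds ?_
        change (k : ℝ) / (k + 1) < (t : ℝ)
        rw [ht1, div_lt_one (by positivity)]
        linarith
      have hU2 : {q : I × R | q.2 ∈ interior (L (j + 1))} ∈ 𝓝 (t, z) :=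
        (isOpen_interior.preimage continuous_snd).mem_nhds (hLi j hj)
      have hU3 : {q : I × R | dist (F q.2) (F z) < η / 2} ∈ 𝓝 (t, z) := by
        have h1 : ContinuousAt (fun q : I × R => F q.2) (t, z) :=
          (F.continuous.comp continuous_snd).continuousAt
        exact (Metric.tendsto_nhds.1 h1) (η / 2) (by positivity)
      filter_upwards [hU1, hU2, hU3] with q hq1 hq2 hq3
      replace hq1 : (k : ℝ) / (k + 1) < (q.1 : ℝ) := hq1
      replace hq2 : q.2 ∈ interior (L (j + 1)) := hq2
      replace hq3 : dist (F q.2) (F z) < η / 2 := hq3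
      have hmain : dist (Φ q) (F q.2) < η / 2 := by
        by_cases hq : (q.1 : ℝ) < 1
        · have hs : (k : NNReal) ≤ Real.toNNReal ((q.1 : ℝ) / (1 - q.1)) := by
            rw [← Real.toNNReal_natCast]
            apply Real.toNNReal_le_toNNReal
            rw [le_div_iff₀ (by linarith)]
            rw [div_lt_iff₀ (by positivity)] at hq1
            nlinarith
          set s := Real.toNNReal ((q.1 : ℝ) / (1 - q.1)) with hsdef
          obtain ⟨t', ht'⟩ := hG s q.2
          have hi : k ≤ ⌊s⌋₊ := Nat.le_floor hs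
          have hzL : q.2 ∈ L ⌊s⌋₊ :=
            hmono ((le_max_right _ _).trans hi) (interior_subset hq2)
          have h1 := hH ⌊s⌋₊ t' q.2 hzL
          have h2 := hF ⌊s⌋₊ q.2 hzL
          have hΦ : Φ q = G (s, q.2) := by
            simp only [Φ]
            rw [if_pos hq]
          rw [hΦ, ht']
          have h3 : dist (H ⌊s⌋₊ (t', q.2)) (F q.2) ≤
              dist (H ⌊s⌋₊ (t', q.2)) (g ⌊s⌋₊ q.2) + dist (F q.2) (g ⌊s⌋₊ q.2) :=
            dist_triangle_right _ _ _
          have h4 : ε / 2 ^ (⌊s⌋₊ + 2) + ε / 2 ^ (⌊s⌋₊ + 1) ≤ ε / 2 ^ k := by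
            have h5 : ε / 2 ^ ⌊s⌋₊ ≤ ε / 2 ^ k :=
              div_le_div_of_nonneg_left hε.le (by positivity)
                (pow_le_pow_right₀ (by norm_num) hi)
            have h6 : ε / 2 ^ (⌊s⌋₊ + 2) + ε / 2 ^ (⌊s⌋₊ + 1) = (3 / 4) * (ε / 2 ^ ⌊s⌋₊) := by
              rw [pow_succ, pow_succ]
              field_simp
              ring
            rw [h6]
            have h7 : 0 ≤ ε / 2 ^ ⌊s⌋₊ := by positivity
            linarith
          linarith
        · have hΦ : Φ q = F q.2 := by
            simp only [Φ]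
            rw [if_neg hq]
          rw [hΦ, dist_self]
          positivity
      calc dist (Φ q) (F z) ≤ dist (Φ q) (F q.2) + dist (F q.2) (F z) := dist_triangle _ _ _
        _ < η := by linarith
  have hhom : (g 0).Homotopic F := by
    refine ⟨⟨⟨Φ, hcont⟩, fun z => ?_, fun z => ?_⟩⟩
    · simp only [Φ]
      rw [if_pos (by simp)]
      have h0 : Real.toNNReal (((0 : I) : ℝ) / (1 - ((0 : I) : ℝ))) = 0 := by simp
      rw [h0]
      exact hG0 z
    · simp only [Φ]
      rw [if_neg (by simp)]
  exact hhom.symm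

/-- Any two maps of the plane into a path connected space are homotopic. -/
theorem homotopic_plane {X : Type*} [TopologicalSpace X] [PathConnectedSpace X] (f g : C(ℂ, X)) :
    f.Homotopic g := by
  have h := id_nullhomotopic ℂ
  obtain ⟨x1, h1⟩ := h
  have hc : ∀ f : C(ℂ, X), f.Homotopic (ContinuousMap.const ℂ (f x1)) := by
    intro f
    have h2 := (ContinuousMap.Homotopic.refl f).comp h1
    exact h2
  have h3 : (ContinuousMap.const ℂ (f x1)).Homotopic (ContinuousMap.const ℂ (g x1)) :=
    ContinuousMap.homotopic_const_iff.2 (PathConnectedSpace.joined _ _)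
  exact (hc f).trans (h3.trans (hc g).symm)

end

end Pool.Agent.W_4d259d_h80
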