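import Pool.Agent.W_4d259d_h80.Jet

/-!
# MP_4d259d_ag, block EX: the limit of the sequence of maps
-/

noncomputable section

set_option linter.unusedSectionVars false

namespace Pool.Agent.W_4d259d_h80

open Set Filter Topology Manifold Metric MeasureTheory TopologicalSpace
open scoped ContDiff
open Pool.Agent.W_4d259d_h46.Defs Pool.Agent.W_4d259d_h46 Pool.Agent.W_4d259d_h44

section

variable {R : Type*} [TopologicalSpace R]
variable {X : Type*} [MetricSpace X] [CompleteSpace X]

/-- The limit `F` of the sequence `g j`, with `dist (F z) (g j z) ≤ ε / 2 ^ (j+1)` on `L j`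
(pointwise limit: `cauchySeq_of_le_geometric`; locally uniform limit of continuous maps). -/
theorem exists_limit {L : ℕ → Set R} (hLi : ∀ j, L j ⊆ interior (L (j + 1)))
    (hLu : (⋃ j, L j) = univ) {ε : ℝ} (hε : 0 < ε) (g : ℕ → C(R, X))
    (hd : ∀ j, ∀ z ∈ L j, dist (g (j + 1) z) (g j z) < ε / 2 ^ (j + 2)) :
    ∃ F : C(R, X), (∀ j, ∀ z ∈ L j, dist (F z) (g j z) ≤ ε / 2 ^ (j + 1)) ∧
      ∀ n, TendstoLocallyUniformlyOn (fun i => ⇑(g (i + n))) F atTop univ := by
  have hmono : ∀ {j i : ℕ}, j ≤ i → L j ⊆ L i := by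
    intro j i hji
    induction hji with
    | refl => exact subset_rfl
    | step _ ih => exact ih.trans ((hLi _).trans interior_subset)
  have hstep : ∀ j, ∀ z ∈ L j, ∀ i : ℕ,
      dist (g (i + j) z) (g (i + 1 + j) z) ≤ ε / 2 ^ (j + 1) / 2 / 2 ^ i := by
    intro j z hz i
    have h1 := hd (i + j) z (hmono (by omega) hz)
    rw [dist_comm] at h1
    have h2 : i + 1 + j = i + j + 1 := by omega
    rw [h2]
    refine h1.le.trans (le_of_eq ?_)
    rw [div_div, div_div]
    congr 1
    rw [pow_add, pow_add, pow_add]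
    ring
  have hex : ∀ z, ∃ x : X, Tendsto (fun i => g i z) atTop (𝓝 x) := by
    intro z
    obtain ⟨j, hj⟩ := mem_iUnion.1 (hLu ▸ mem_univ z : z ∈ ⋃ j, L j)
    have h1 : CauchySeq fun i => g (i + j) z := cauchySeq_of_le_geometric_two (hstep j z hj)
    obtain ⟨x, hx⟩ := cauchySeq_tendsto_of_complete h1
    exact ⟨x, (tendsto_add_atTop_iff_nat j).1 hx⟩
  choose F0 hF0 using hex
  have hdist : ∀ j, ∀ z ∈ L j, dist (F0 z) (g j z) ≤ ε / 2 ^ (j + 1) := by
    intro j z hz
    have h1 : Tendsto (fun i => g (i + j) z) atTop (𝓝 (F0 z)) :=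
      (tendsto_add_atTop_iff_nat (f := fun i => g i z) j).2 (hF0 z)
    have h2 := dist_le_of_le_geometric_two_of_tendsto (hstep j z hz) h1 0
    rw [pow_zero, div_one, zero_add, dist_comm] at h2
    exact h2
  have hzero : Tendsto (fun i : ℕ => ε / 2 ^ (i + 1)) atTop (𝓝 0) := by
    have h1 : Tendsto (fun i : ℕ => ε * (1 / 2 : ℝ) ^ (i + 1)) atTop (𝓝 (ε * 0)) :=
      ((tendsto_pow_atTop_nhds_zero_of_lt_one (by norm_num) (by norm_num)).comp
        (tendsto_add_atTop_nat 1)).const_mul ε
    rw [mul_zero] at h1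
    refine h1.congr fun i => ?_
    rw [one_div, inv_pow, div_eq_mul_inv]
  have hlu : ∀ n, TendstoLocallyUniformlyOn (fun i => ⇑(g (i + n))) F0 atTop univ := by
    intro n
    rw [Metric.tendstoLocallyUniformlyOn_iff]
    intro η hη z _
    obtain ⟨j, hj⟩ := mem_iUnion.1 (hLu ▸ mem_univ z : z ∈ ⋃ j, L j)
    refine ⟨L (j + 1), mem_nhdsWithin_of_mem_nhds (mem_of_superset
      (isOpen_interior.mem_nhds (hLi j hj)) interior_subset), ?_⟩
    have h1 : ∀ᶠ i : ℕ in atTop, ε / 2 ^ (i + n + 1) < η := by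
      have h2 : Tendsto (fun i : ℕ => ε / 2 ^ (i + n + 1)) atTop (𝓝 0) :=
        hzero.comp (tendsto_add_atTop_nat n)
      exact (tendsto_order.1 h2).2 η hη
    filter_upwards [h1, eventually_ge_atTop (j + 1)] with i hi hij w hw
    exact (hdist (i + n) w (hmono (by omega) hw)).trans_lt hi
  have hcont : Continuous F0 := by
    have h1 := (hlu 0).continuousOn (Frequently.of_forall fun i => (g (i + 0)).continuous.continuousOn)
    exact continuousOn_univ.1 h1
  exact ⟨⟨F0, hcont⟩, hdist, hlu⟩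

end

section

variable {R : Type*} [TopologicalSpace R] [T2Space R] [ChartedSpace ℂ R]
  [IsManifold (modelWithCornersSelf ℂ ℂ) ω R]
variable {E : Type*} [NormedAddCommGroup E] [NormedSpace ℂ E] [CompleteSpace E]
variable {X : Type*} [MetricSpace X] [ChartedSpace E X] [IsManifold (modelWithCornersSelf ℂ E) ω X]

/-- The limit is holomorphic on `R` and has the same jets as `g 0`.  On `interior (L n)` all maps
`g (i + n)` are holomorphic: `holOn_of_tendstoX`; jets: `jetEq_limit` on `interior (L n)`, `a` in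
`interior (L n)`. -/
theorem limit_hol {L : ℕ → Set R} (hLi : ∀ j, L j ⊆ interior (L (j + 1)))
    (hLu : (⋃ j, L j) = univ) (g : ℕ → C(R, X)) (V : ℕ → Opens R) (hLV : ∀ j, L j ⊆ V j)
    (hg : ∀ j, HolOn E (g j) (V j)) {F : C(R, X)}
    (hF : ∀ n, TendstoLocallyUniformlyOn (fun i => ⇑(g (i + n))) F atTop univ) :
    HolOn E F univ ∧ ∀ (a : R) (k : ℕ), (∀ j, JetEq E k (g (j + 1)) (g j) a) →
      JetEq E k F (g 0) a := by
  have hmono : ∀ {j i : ℕ}, j ≤ i → L j ⊆ L i := by
    intro j i hji
    induction hji with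
    | refl => exact subset_rfl
    | step _ ih => exact ih.trans ((hLi _).trans interior_subset)
  have hO : ∀ n i : ℕ, HolOn E (g (i + n)) (interior (L n)) := fun n i =>
    (hg (i + n)).mono (interior_subset.trans ((hmono (by omega)).trans (hLV (i + n))))
  constructor
  · refine holOn_of_local fun z _ => ?_
    obtain ⟨j, hj⟩ := mem_iUnion.1 (hLu ▸ mem_univ z : z ∈ ⋃ j, L j)
    exact ⟨interior (L (j + 1)), isOpen_interior, hLi j hj,
      holOn_of_tendstoX isOpen_interior (hO (j + 1)) ((hF (j + 1)).mono (subset_univ _))⟩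
  · intro a k hk
    obtain ⟨j, hj⟩ := mem_iUnion.1 (hLu ▸ mem_univ a : a ∈ ⋃ j, L j)
    have h1 : ∀ i n : ℕ, JetEq E k (g (i + n)) (g n) a := by
      intro i n
      induction i with
      | zero =>
        rw [zero_add]
        exact jetEq_refl k _ a
      | succ i ih =>
        have h2 := hk (i + n)
        have h3 : i + 1 + n = i + n + 1 := by omega
        rw [h3]
        exact jetEq_trans h2 ih
    have h2 : JetEq E k F (g (j + 1)) a := by
      refine jetEq_limit isOpen_interior (hLi j hj) (hO (j + 1)) ?_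
        ((hF (j + 1)).mono (subset_univ _)) (fun i => h1 i (j + 1))
      have := hO (j + 1) 0
      rwa [zero_add] at this
    exact jetEq_trans h2 (h1 (j + 1) 0)

end

end Pool.Agent.W_4d259d_h80
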