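import Pool.Agent.W_4d259d_h80.Jet
import Pool.Agent.W_4d259d_h44.Iface

/-!
# MP_4d259d_ag, block EX: the sequence of maps
-/

noncomputable section

set_option linter.unusedSectionVars false

namespace Pool.Agent.W_4d259d_h80

open Set Filter Topology Manifold Metric MeasureTheory TopologicalSpace
open scoped ContDiff
open Pool.Agent.W_4d259d_h46.Defs Pool.Agent.W_4d259d_h46 Pool.Agent.W_4d259d_h44

section

/-- A compact exhaustion starting with `K`. -/
theorem exists_exhaustion {R : Type*} [TopologicalSpace R] [T2Space R] [LocallyCompactSpace R]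
    [SecondCountableTopology R] {K : Set R} (hK : IsCompact K) :
    ∃ L : ℕ → Set R, L 0 = K ∧ (∀ j, IsCompact (L j)) ∧
      (∀ j, L j ⊆ interior (L (j + 1))) ∧ (⋃ j, L j) = univ := by
  let c : CompactExhaustion R := CompactExhaustion.choice R
  have step : ∀ (n : ℕ) (S : {S : Set R // IsCompact S}), ∃ S' : {S : Set R // IsCompact S},
      (S : Set R) ∪ c n ⊆ interior (S' : Set R) := by
    intro n S
    obtain ⟨S', hS', hSS'⟩ := exists_compact_superset (S.2.union (c.isCompact n))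
    exact ⟨⟨S', hS'⟩, hSS'⟩
  choose next hnext using step
  let L : ℕ → {S : Set R // IsCompact S} := fun n =>
    Nat.rec (motive := fun _ => {S : Set R // IsCompact S}) ⟨K, hK⟩ next n
  have hLs : ∀ n, L (n + 1) = next n (L n) := fun n => rfl
  refine ⟨fun n => (L n : Set R), rfl, fun n => (L n).2, ?_, ?_⟩
  · intro j
    show (L j : Set R) ⊆ interior (L (j + 1) : Set R)
    rw [hLs]
    exact subset_union_left.trans (hnext j (L j))
  · rw [eq_univ_iff_forall]
    intro z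
    obtain ⟨n, hn⟩ := c.exists_mem z
    refine mem_iUnion.2 ⟨n + 1, ?_⟩
    show z ∈ (L (n + 1) : Set R)
    rw [hLs]
    exact interior_subset (hnext n (L n) (Or.inr hn))

/-- The range of `a` meets every compact set in a finite set, and for `l` the numbers `k i` with
`a i = l` are bounded. -/
theorem range_finite {R : Type*} [TopologicalSpace R] {a : ℕ → R}
    (ha : Tendsto a cofinite (cocompact R)) (k : ℕ → ℕ) :
    (∀ L : Set R, IsCompact L → (range a ∩ L).Finite) ∧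
      ∃ kk : R → ℕ, ∀ i, k i ≤ kk (a i) := by
  have h1 : ∀ L : Set R, IsCompact L → (a ⁻¹' L).Finite := fun L hL =>
    (tendsto_cofinite_cocompact_iff.mp ha) L hL
  refine ⟨fun L hL => ?_, fun l => sSup (k '' (a ⁻¹' {l})), fun i => ?_⟩
  · refine ((h1 L hL).image a).subset ?_
    rintro _ ⟨⟨i, rfl⟩, hi⟩
    exact mem_image_of_mem a hi
  · exact le_csSup ((h1 {a i} isCompact_singleton).image k).bddAbove
      (mem_image_of_mem k (mem_preimage.2 (mem_singleton _)))

variable {R : Type} [TopologicalSpace R] [ChartedSpace ℂ R]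
variable {E : Type} [NormedAddCommGroup E] [NormedSpace ℂ E]
variable {X : Type} [MetricSpace X] [ChartedSpace E X]

/-- The sequence `g j`.  `Q j` is any property of pairs of maps that holds for all modifications
that are small enough (in the application: there is a small homotopy).  Recursion on pairs
`(g j, U j)` with `HolOn E (g j) (U j)` and `L j ∪ Λ ⊆ U j`; step: `ExtThm` for
`f := g j, U := U j, K := L j, L := L (j+1)` gives `C`; the hypothesis on `Q` gives `ε1`; then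
`ExtThm` with `min ε1 (ε / 2 ^ (j+2))`. -/
theorem exists_seq (hExt : ExtThm R E X) (f : C(R, X)) (U : Opens R) (hf : HolOn E f U)
    (L : ℕ → Set R) (hL : ∀ j, IsCompact (L j)) (hLs : ∀ j, L j ⊆ L (j + 1)) {Λ : Set R}
    (hLU : L 0 ∪ Λ ⊆ U) (hΛ : ∀ L : Set R, IsCompact L → (Λ ∩ L).Finite) (kk : R → ℕ)
    {ε : ℝ} (hε : 0 < ε) (Q : ℕ → C(R, X) → C(R, X) → Prop)
    (hQ : ∀ (j : ℕ) (g : C(R, X)) (C : Set R), IsCompact C → ∃ ε1 > 0,
      ∀ (g' : C(R, X)) (s : Set (Set R)), (∀ z ∉ C, g' z = g z) → DiscFam s →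
        (∀ D ∈ s, D ⊆ C ∧ Disjoint D (L j) ∧ ∀ z ∈ D, ∀ z' ∈ D, dist (g z) (g z') < ε1) →
        (∀ z ∉ ⋃₀ s, dist (g' z) (g z) < ε1) → Q j g g') :
    ∃ (g : ℕ → C(R, X)) (V : ℕ → Opens R), g 0 = f ∧ (∀ j, L j ∪ Λ ⊆ V j) ∧
      (∀ j, HolOn E (g j) (V j)) ∧ (∀ j, ∀ l ∈ Λ, JetEq E (kk l) (g (j + 1)) (g j) l) ∧
      (∀ j, ∀ z ∈ L j, dist (g (j + 1) z) (g j z) < ε / 2 ^ (j + 2)) ∧
      ∀ j, Q j (g j) (g (j + 1)) := by
  let S : ℕ → Type := fun j =>
    {p : C(R, X) × Opens R // L j ∪ Λ ⊆ (p.2 : Set R) ∧ HolOn E p.1 (p.2 : Set R)}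
  have step : ∀ (j : ℕ) (p : S j), ∃ q : S (j + 1),
      (∀ l ∈ Λ, JetEq E (kk l) q.1.1 p.1.1 l) ∧
      (∀ z ∈ L j, dist (q.1.1 z) (p.1.1 z) < ε / 2 ^ (j + 2)) ∧ Q j p.1.1 q.1.1 := by
    rintro j ⟨⟨g, V⟩, hLV, hg⟩
    obtain ⟨C, hC, hext⟩ := hExt g V hg (L j) (hL j) (subset_union_left.trans hLV) Λ
      (subset_union_right.trans hLV) hΛ (L (j + 1)) (hL (j + 1))
    obtain ⟨ε1, hε1, hQ1⟩ := hQ j g C hC
    have hε2 : 0 < ε / 2 ^ (j + 2) := by positivity
    obtain ⟨g', V', s, hLV', hg', hj', hoff, hs, hs1, hd⟩ := hext kk (min ε1 (ε / 2 ^ (j + 2)))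
      (lt_min hε1 hε2)
    refine ⟨⟨(g', V'), ?_, hg'⟩, hj', ?_, ?_⟩
    · rintro z (hz | hz)
      · exact hLV' (Or.inl (Or.inr hz))
      · exact hLV' (Or.inr hz)
    · intro z hz
      refine (hd z ?_).trans_le (min_le_right _ _)
      rintro ⟨D, hD, hzD⟩
      exact disjoint_left.1 (hs1 D hD).2.1 hzD hz
    · refine hQ1 g' s hoff hs (fun D hD => ⟨(hs1 D hD).1, (hs1 D hD).2.1, ?_⟩) ?_
      · intro z hz z' hz'
        exact ((hs1 D hD).2.2 z hz z' hz').trans_le (min_le_left _ _)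
      · intro z hz
        exact (hd z hz).trans_le (min_le_left _ _)
  choose next hnext using step
  let s0 : S 0 := ⟨(f, U), hLU, hf⟩
  let G : (j : ℕ) → S j := fun j => Nat.rec (motive := S) s0 next j
  have hGs : ∀ j, G (j + 1) = next j (G j) := fun j => rfl
  refine ⟨fun j => (G j).1.1, fun j => (G j).1.2, rfl, fun j => (G j).2.1, fun j => (G j).2.2,
    ?_, ?_, ?_⟩
  · intro j l hl
    exact (hnext j (G j)).1 l hl
  · intro j z hz
    exact (hnext j (G j)).2.1 z hz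
  · intro j
    exact (hnext j (G j)).2.2

end

end Pool.Agent.W_4d259d_h80
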