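import Pool.Agent.W_4d259d_h80.Ext
import Pool.Agent.W_4d259d_h80.Seq
import Pool.Agent.W_4d259d_h80.Lim
import Pool.Agent.W_4d259d_h80.Hom

/-!
# MP_4d259d_ag, block EX: the assembly
-/

noncomputable section

set_option linter.unusedSectionVars false

namespace Pool.Agent.W_4d259d_h80

open Set Filter Topology Manifold Metric MeasureTheory TopologicalSpace
open scoped ContDiff
open Pool.Agent.W_4d259d_h46.Defs Pool.Agent.W_4d259d_h46 Pool.Agent.W_4d259d_h44

section

variable (R : Type) [TopologicalSpace R] [T2Space R] [SecondCountableTopology R] [ChartedSpace ℂ R]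
  [IsManifold (modelWithCornersSelf ℂ ℂ) ω R]
variable (E : Type) [NormedAddCommGroup E] [NormedSpace ℂ E] [FiniteDimensional ℂ E]
variable (X : Type) [MetricSpace X] [CompleteSpace X] [ChartedSpace E X]
  [IsManifold (modelWithCornersSelf ℂ E) ω X]

/-- Oka-1 data can be solved on `R`, with homotopy (`exists_seq` with `Q j g g'` := there is a
homotopy which is small on `L j`, from `SmallHom`; `RungeExh`; `exists_limit`, `limit_hol`,
`homotopic_limit`). -/
theorem okaOneOn_of (hB : BumpThm R E X) (hS : SmallHom R X) (hR : RungeExh R) :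
    OkaOneOn R E X := by
  intro K hK hKR a ha k f U hU hKU haU hf ε hε
  have hExt := extThm_of R E X hB
  obtain ⟨hΛ, kk, hkk⟩ := range_finite ha k
  obtain ⟨L, hL0, hLc, hLR, hLi, hLu⟩ := hR K hK hKR
  obtain ⟨g, V, hg0, hLV, hgV, hjet, hd, hQ⟩ := exists_seq hExt f ⟨U, hU⟩ hf L hLc
    (fun j => (hLi j).trans interior_subset) (Λ := range a)
    (by
      rw [hL0]
      refine union_subset hKU ?_
      rintro _ ⟨i, rfl⟩
      exact haU i)
    hΛ kk hε
    (fun j g g' => ∃ H : ContinuousMap.Homotopy g g',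
      ∀ t, ∀ z ∈ L j, dist (H (t, z)) (g z) < ε / 2 ^ (j + 2))
    (fun j g C hC => hS g (L j) C (hLc j) (hLR j) hC _ (by positivity))
  obtain ⟨F, hFd, hFl⟩ := exists_limit hLi hLu hε g hd
  obtain ⟨hFh, hFj⟩ := limit_hol (E := E) hLi hLu g V (fun j => subset_union_left.trans (hLV j))
    hgV hFl
  refine ⟨F, hFh, ?_, ?_, ?_⟩
  · rw [← hg0]
    exact homotopic_limit hLi hLu hε g hQ F hFd
  · intro p hp
    have h1 := hFd 0 p (by rw [hL0]; exact hp)
    rw [hg0] at h1
    refine h1.trans_lt ?_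
    rw [zero_add, pow_one]
    linarith
  · intro i
    have h1 := hFj (a i) (kk (a i)) fun j => hjet j _ ⟨i, rfl⟩
    rw [hg0] at h1
    exact jetEq_mono (hkk i) h1

end

section

variable (E : Type) [NormedAddCommGroup E] [NormedSpace ℂ E] [FiniteDimensional ℂ E]
variable (X : Type) [MetricSpace X] [CompleteSpace X] [ChartedSpace E X]
  [IsManifold (modelWithCornersSelf ℂ E) ω X]

/-- The plane: no homotopy theorem is needed (`exists_seq` with `Q := True`, `exists_exhaustion`,
`homotopic_plane`). -/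
theorem okaOneOn_plane [PathConnectedSpace X] (hB : BumpThm ℂ E X) : OkaOneOn ℂ E X := by
  intro K hK _ a ha k f U hU hKU haU hf ε hε
  have hExt := extThm_of ℂ E X hB
  obtain ⟨hΛ, kk, hkk⟩ := range_finite ha k
  obtain ⟨L, hL0, hLc, hLi, hLu⟩ := exists_exhaustion hK
  obtain ⟨g, V, hg0, hLV, hgV, hjet, hd, -⟩ := exists_seq hExt f ⟨U, hU⟩ hf L hLc
    (fun j => (hLi j).trans interior_subset) (Λ := range a)
    (by
      rw [hL0]
      refine union_subset hKU ?_
      rintro _ ⟨i, rfl⟩
      exact haU i)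
    hΛ kk hε (fun _ _ _ => True) (fun j g C hC => ⟨1, one_pos, fun _ _ _ _ _ _ => trivial⟩)
  obtain ⟨F, hFd, hFl⟩ := exists_limit hLi hLu hε g hd
  obtain ⟨hFh, hFj⟩ := limit_hol (E := E) hLi hLu g V (fun j => subset_union_left.trans (hLV j))
    hgV hFl
  refine ⟨F, hFh, homotopic_plane F f, ?_, ?_⟩
  · intro p hp
    have h1 := hFd 0 p (by rw [hL0]; exact hp)
    rw [hg0] at h1
    refine h1.trans_lt ?_
    rw [zero_add, pow_one]
    linarith
  · intro i
    have h1 := hFj (a i) (kk (a i)) fun j => hjet j _ ⟨i, rfl⟩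
    rw [hg0] at h1
    exact jetEq_mono (hkk i) h1

end

end Pool.Agent.W_4d259d_h80
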