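import Pool.Agent.W_4d259d_h44.Iface

/-!
# MP_4d259d_ag, block EX: the BLEND LEMMA

Changing a map inside one coordinate patch of the target, with the homotopy.
-/

noncomputable section

set_option linter.unusedSectionVars false

namespace Pool.Agent.W_4d259d_h80

open Set Filter Topology Manifold Metric MeasureTheory TopologicalSpace
open scoped ContDiff unitInterval
open Pool.Agent.W_4d259d_h46.Defs Pool.Agent.W_4d259d_h46 Pool.Agent.W_4d259d_h44

section

variable {E : Type*} [NormedAddCommGroup E] [NormedSpace ℂ E] [FiniteDimensional ℂ E]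
variable {X : Type*} [MetricSpace X]

/-- Uniform control of a chart near a compact set `C` of its source: for `ε > 0` there are
`δ, ε1 > 0` such that for `x ∈ C`: the ball of radius `δ` around `φ x` lies in the target and is
mapped by `φ.symm` into the ball of radius `ε` around `x`; and the ball of radius `ε1` around `x`
lies in the source and is mapped into the ball of radius `δ`.

Proof: `φ '' C` is compact in the open set `φ.target`; `IsCompact.uniformContinuousAt_of_continuousAt`
for `φ.symm` on `φ '' C` gives `δ` (first `IsCompact.exists_thickening_subset_open` for the target),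
and for `φ` on `C` gives `ε1` (first `exists_thickening_subset_open` for the source). -/
theorem chart_control {φ : OpenPartialHomeomorph X E} {C : Set X} (hC : IsCompact C)
    (hCφ : C ⊆ φ.source) {ε : ℝ} (hε : 0 < ε) :
    ∃ δ > 0, ∃ ε1 > 0, (∀ x ∈ C, ∀ p, dist p (φ x) < δ → p ∈ φ.target ∧ dist (φ.symm p) x < ε) ∧
      (∀ x ∈ C, ∀ y, dist y x < ε1 → y ∈ φ.source ∧ dist (φ y) (φ x) < δ) := by
  have hD : IsCompact (φ '' C) := hC.image_of_continuousOn (φ.continuousOn.mono hCφ)
  have hDt : φ '' C ⊆ φ.target := by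
    rintro _ ⟨x, hx, rfl⟩
    exact φ.map_source (hCφ hx)
  obtain ⟨δ0, hδ0, hth⟩ := hD.exists_thickening_subset_open φ.open_target hDt
  have h1 := hD.uniformContinuousAt_of_continuousAt φ.symm
    (fun a ha => φ.continuousAt_symm (hDt ha)) (Metric.dist_mem_uniformity hε)
  obtain ⟨δ1, hδ1, h1'⟩ := Metric.mem_uniformity_dist.1 h1
  have hδ : 0 < min δ0 δ1 := lt_min hδ0 hδ1
  obtain ⟨η0, hη0, hth2⟩ := hC.exists_thickening_subset_open φ.open_source hCφ
  have h2 := hC.uniformContinuousAt_of_continuousAt φ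
    (fun a ha => φ.continuousAt (hCφ ha)) (Metric.dist_mem_uniformity hδ)
  obtain ⟨η1, hη1, h2'⟩ := Metric.mem_uniformity_dist.1 h2
  refine ⟨min δ0 δ1, hδ, min η0 η1, lt_min hη0 hη1, ?_, ?_⟩
  · intro x hx p hp
    refine ⟨hth (Metric.mem_thickening_iff.2 ⟨φ x, mem_image_of_mem _ hx,
      hp.trans_le (min_le_left _ _)⟩), ?_⟩
    have h3 := h1' (a := φ x) (b := p) (by
      rw [dist_comm]
      exact hp.trans_le (min_le_right _ _)) (mem_image_of_mem _ hx)
    have h4 : dist (φ.symm (φ x)) (φ.symm p) < ε := h3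
    rw [φ.left_inv (hCφ hx), dist_comm] at h4
    exact h4
  · intro x hx y hy
    refine ⟨hth2 (Metric.mem_thickening_iff.2 ⟨x, hx, hy.trans_le (min_le_left _ _)⟩), ?_⟩
    have h3 := h2' (a := x) (b := y) (by
      rw [dist_comm]
      exact hy.trans_le (min_le_right _ _)) hx
    have h4 : dist (φ x) (φ y) < min δ0 δ1 := h3
    rw [dist_comm] at h4
    exact h4

variable {R : Type*} [TopologicalSpace R] [T2Space R] [LocallyCompactSpace R]

/-- BLEND LEMMA.  `O` open with compact closure, `φ` a chart with `f (closure O) ⊆ φ.source`.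
For every `ε > 0` there is `ε1 > 0` such that: if `G` is `ε1`-close to `f` on `O` and `F'`,
continuous on the open set `V`, is `ε1`-close to `f` on `V ∩ O`, then for every compact
`P ⊆ O ∩ V` the map `G` can be changed inside a compact subset `Q` of `O ∩ V` to a map `G'` which
is equal to `F'` near `P`, by a homotopy which is `ε`-close to `f` on `O` and constant off `Q`;
and `G' z = F' z` for all `z ∈ V` with `G z = F' z`.

Proof: `lam : R → [0,1]` continuous, compact support in `O ∩ V`, `= 1` near `P`;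
`H (t,z) = φ.symm (φ (G z) + (t * lam z) • (φ (F' z) - φ (G z)))` for `z ∈ O ∩ V`, `G z` off the
support of `lam`. -/
theorem blend (f : C(R, X)) {O : Set R} (hO : IsOpen O) (hOc : IsCompact (closure O))
    {φ : OpenPartialHomeomorph X E} (hφ : ∀ z ∈ closure O, f z ∈ φ.source) {ε : ℝ} (hε : 0 < ε) :
    ∃ ε1 > 0, ∀ G : C(R, X), (∀ z ∈ O, dist (G z) (f z) < ε1) →
      ∀ V : Set R, IsOpen V → ∀ F' : R → X, ContinuousOn F' V →
      (∀ z ∈ V ∩ O, dist (F' z) (f z) < ε1) →
      ∀ P : Set R, IsCompact P → P ⊆ O ∩ V →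
      ∃ (G' : C(R, X)) (H : ContinuousMap.Homotopy G G') (Q P' : Set R),
        IsCompact Q ∧ Q ⊆ O ∩ V ∧ (∀ z ∉ Q, ∀ t, H (t, z) = G z) ∧
        (∀ t, ∀ z ∈ O, dist (H (t, z)) (f z) < ε) ∧
        IsOpen P' ∧ P ⊆ P' ∧ P' ⊆ V ∧ (∀ z ∈ P', G' z = F' z) ∧
        (∀ z ∈ V, G z = F' z → G' z = F' z) := by
  obtain ⟨δ, hδ, ε1, hε1, hc1, hc2⟩ := chart_control (φ := φ) (C := f '' closure O)
    (hOc.image f.continuous) (by rintro _ ⟨z, hz, rfl⟩; exact hφ z hz) hε
  refine ⟨ε1, hε1, ?_⟩
  intro G hG V hV F' hF' hF'd P hP hPO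
  obtain ⟨P1, hP1, hPP1, hP1O⟩ := exists_compact_between hP (hO.inter hV) hPO
  obtain ⟨P2, hP2, hP12, hP2O⟩ := exists_compact_between hP1 (hO.inter hV) hP1O
  obtain ⟨lam, hl1, hl0, -, hl01⟩ := exists_continuous_one_zero_of_isCompact hP1
    (isOpen_interior (s := P2)).isClosed_compl
    (disjoint_compl_right_iff_subset.2 hP12)
  -- the basic facts on `O`
  have hGs : ∀ z ∈ O, G z ∈ φ.source ∧ dist (φ (G z)) (φ (f z)) < δ := fun z hz =>
    hc2 _ (mem_image_of_mem _ (subset_closure hz)) _ (hG z hz)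
  have hFs : ∀ z ∈ O ∩ V, F' z ∈ φ.source ∧ dist (φ (F' z)) (φ (f z)) < δ := fun z hz =>
    hc2 _ (mem_image_of_mem _ (subset_closure hz.1)) _ (hF'd z ⟨hz.2, hz.1⟩)
  have hball : ∀ z ∈ O ∩ V, ∀ s : ℝ, s ∈ Icc (0 : ℝ) 1 →
      dist (φ (G z) + s • (φ (F' z) - φ (G z))) (φ (f z)) < δ := by
    intro z hz s hs
    exact (convex_ball (φ (f z)) δ).add_smul_sub_mem (hGs z hz.1).2 (hFs z hz).2 hs
  have htl : ∀ (t : I) (z : R), (t : ℝ) * lam z ∈ Icc (0 : ℝ) 1 := by
    intro t z
    have h1 := hl01 z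
    exact ⟨mul_nonneg t.2.1 h1.1, mul_le_one₀ t.2.2 h1.1 h1.2⟩
  have hin : ∀ z ∈ O ∩ V, ∀ s : ℝ, s ∈ Icc (0 : ℝ) 1 →
      φ (G z) + s • (φ (F' z) - φ (G z)) ∈ φ.target ∧
      dist (φ.symm (φ (G z) + s • (φ (F' z) - φ (G z)))) (f z) < ε := fun z hz s hs =>
    hc1 _ (mem_image_of_mem _ (subset_closure hz.1)) _ (hball z hz s hs)
  classical
  let Hf : I × R → X := fun q => if q.2 ∈ O ∩ V then
    φ.symm (φ (G q.2) + ((q.1 : ℝ) * lam q.2) • (φ (F' q.2) - φ (G q.2))) else G q.2
  have hHin : ∀ (t : I) (z : R), z ∈ O ∩ V → Hf (t, z) =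
      φ.symm (φ (G z) + ((t : ℝ) * lam z) • (φ (F' z) - φ (G z))) := by
    intro t z hz
    exact if_pos hz
  have hHoff : ∀ (t : I) (z : R), (t : ℝ) * lam z = 0 → Hf (t, z) = G z := by
    intro t z h0
    by_cases hz : z ∈ O ∩ V
    · rw [hHin t z hz, h0, zero_smul, add_zero, φ.left_inv (hGs z hz.1).1]
    · exact if_neg hz
  have hlamoff : ∀ z ∉ P2, lam z = 0 := fun z hz => hl0 (fun h => hz (interior_subset h))
  have hcont : Continuous Hf := by
    rw [continuous_iff_continuousAt]
    rintro ⟨t, z⟩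
    by_cases hz : z ∈ O ∩ V
    · have hopen : IsOpen (O ∩ V) := hO.inter hV
      have hev : Hf =ᶠ[𝓝 (t, z)] fun q : I × R =>
          φ.symm (φ (G q.2) + ((q.1 : ℝ) * lam q.2) • (φ (F' q.2) - φ (G q.2))) := by
        have : ∀ᶠ q : I × R in 𝓝 (t, z), q.2 ∈ O ∩ V :=
          (continuous_snd.tendsto (t, z)).eventually (hopen.mem_nhds hz)
        filter_upwards [this] with q hq
        exact hHin q.1 q.2 hq
      refine ContinuousAt.congr ?_ hev.symm
      have hG1 : ContinuousAt (fun q : I × R => φ (G q.2)) (t, z) :=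
        ContinuousAt.comp (f := fun q : I × R => G q.2) (g := φ)
          (φ.continuousAt (hGs z hz.1).1) (G.continuous.comp continuous_snd).continuousAt
      have hF0 : ContinuousAt (fun q : I × R => F' q.2) (t, z) :=
        ContinuousAt.comp (f := fun q : I × R => q.2) (g := F')
          ((hF' z hz.2).continuousAt (hV.mem_nhds hz.2)) continuous_snd.continuousAt
      have hF1 : ContinuousAt (fun q : I × R => φ (F' q.2)) (t, z) :=
        ContinuousAt.comp (f := fun q : I × R => F' q.2) (g := φ)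
          (φ.continuousAt (hFs z hz).1) hF0
      have hs1 : ContinuousAt (fun q : I × R => ((q.1 : ℝ) * lam q.2)) (t, z) :=
        ((continuous_subtype_val.comp continuous_fst).mul
          (lam.continuous.comp continuous_snd)).continuousAt
      have h5 : ContinuousAt (fun q : I × R =>
          φ (G q.2) + ((q.1 : ℝ) * lam q.2) • (φ (F' q.2) - φ (G q.2))) (t, z) :=
        hG1.add (hs1.smul (hF1.sub hG1))
      exact ContinuousAt.comp (g := φ.symm) (φ.continuousAt_symm (hin z hz _ (htl t z)).1) h5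
    · have hz2 : z ∉ P2 := fun h => hz (hP2O h)
      have hev : Hf =ᶠ[𝓝 (t, z)] fun q : I × R => G q.2 := by
        have : ∀ᶠ q : I × R in 𝓝 (t, z), q.2 ∉ P2 :=
          (continuous_snd.tendsto (t, z)).eventually (hP2.isClosed.isOpen_compl.mem_nhds hz2)
        filter_upwards [this] with q hq
        exact hHoff q.1 q.2 (by rw [hlamoff _ hq, mul_zero])
      exact ContinuousAt.congr (G.continuous.comp continuous_snd).continuousAt hev.symm
  let G' : C(R, X) := ⟨fun z => Hf (1, z), hcont.comp (by fun_prop)⟩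
  let H : ContinuousMap.Homotopy G G' :=
    { toFun := Hf
      continuous_toFun := hcont
      map_zero_left := fun z => hHoff 0 z (by simp)
      map_one_left := fun z => rfl }
  have hG'in : ∀ z ∈ O ∩ V, G' z = φ.symm (φ (G z) + (lam z) • (φ (F' z) - φ (G z))) := by
    intro z hz
    show Hf (1, z) = _
    rw [hHin 1 z hz]
    simp
  refine ⟨G', H, P2, interior P1, hP2, hP2O, ?_, ?_, isOpen_interior, hPP1, ?_, ?_, ?_⟩
  · intro z hz t
    exact hHoff t z (by rw [hlamoff _ hz, mul_zero])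
  · intro t z hz
    show dist (Hf (t, z)) (f z) < ε
    by_cases hzV : z ∈ O ∩ V
    · rw [hHin t z hzV]
      exact (hin z hzV _ (htl t z)).2
    · have hz2 : z ∉ P2 := fun h => hzV (hP2O h)
      rw [hHoff t z (by rw [hlamoff _ hz2, mul_zero])]
      have := hc1 (f z) (mem_image_of_mem _ (subset_closure hz)) (φ (G z)) (hGs z hz).2
      rw [φ.left_inv (hGs z hz).1] at this
      exact this.2
  · exact interior_subset.trans (hP1O.trans inter_subset_right)
  · intro z hz
    have hz1 : z ∈ P1 := interior_subset hz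
    rw [hG'in z (hP1O hz1), hl1 hz1]
    simp only [Pi.one_apply, one_smul, add_sub_cancel]
    exact φ.left_inv (hFs z (hP1O hz1)).1
  · intro z hz hGF
    by_cases hzO : z ∈ O
    · rw [hG'in z ⟨hzO, hz⟩, hGF, sub_self, smul_zero, add_zero,
        φ.left_inv (hFs z ⟨hzO, hz⟩).1]
    · have hz2 : z ∉ P2 := fun h => hzO (hP2O h).1
      rw [← hGF]
      exact hHoff 1 z (by rw [hlamoff _ hz2, mul_zero])

end

end Pool.Agent.W_4d259d_h80
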