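import Pool.Agent.W_4d259d_h44.ApiB

/-!
# MP_4d259d_ag, block EX: jets (`JetEq`)
-/

noncomputable section

set_option linter.unusedSectionVars false

namespace Pool.Agent.W_4d259d_h80

open Set Filter Topology Manifold Metric MeasureTheory TopologicalSpace Asymptotics
open scoped ContDiff
open Pool.Agent.W_4d259d_h46.Defs Pool.Agent.W_4d259d_h46 Pool.Agent.W_4d259d_h44

section

variable {R : Type*} [TopologicalSpace R] [ChartedSpace ℂ R]
variable {E : Type*} [NormedAddCommGroup E] [NormedSpace ℂ E]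
variable {X : Type*} [TopologicalSpace X] [ChartedSpace E X]

theorem jetEq_refl (k : ℕ) (f : R → X) (a : R) : JetEq E k f f a := by
  refine ⟨rfl, ?_⟩
  simp only [sub_self]
  exact isBigO_zero _ _

theorem jetEq_symm {k : ℕ} {f g : R → X} {a : R} (h : JetEq E k f g a) : JetEq E k g f a := by
  refine ⟨h.1.symm, ?_⟩
  rw [h.1]
  have h2 := h.2.neg_left
  simp only [neg_sub] at h2
  exact h2

theorem jetEq_trans {k : ℕ} {f g h : R → X} {a : R} (h1 : JetEq E k f g a)
    (h2 : JetEq E k g h a) : JetEq E k f h a := by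
  refine ⟨h1.1.trans h2.1, ?_⟩
  have e1 := h1.2
  rw [h2.1] at e1
  have e3 := e1.add h2.2
  simp only [sub_add_sub_cancel] at e3
  exact e3

theorem jetEq_mono {k l : ℕ} (hkl : k ≤ l) {f g : R → X} {a : R} (h : JetEq E l f g a) :
    JetEq E k f g a := by
  refine ⟨h.1, h.2.trans ?_⟩
  have hc : ContinuousAt (extChartAt (modelWithCornersSelf ℂ ℂ) a) a := continuousAt_extChartAt a
  have h1 : ∀ᶠ z in 𝓝 a, ‖extChartAt (modelWithCornersSelf ℂ ℂ) a z
      - extChartAt (modelWithCornersSelf ℂ ℂ) a a‖ < 1 := by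
    have h2 : Tendsto (fun z => ‖extChartAt (modelWithCornersSelf ℂ ℂ) a z
      - extChartAt (modelWithCornersSelf ℂ ℂ) a a‖) (𝓝 a) (𝓝 0) := by
      have := (hc.tendsto.sub_const (extChartAt (modelWithCornersSelf ℂ ℂ) a a)).norm
      simpa using this
    exact h2.eventually (gt_mem_nhds one_pos)
  refine IsBigO.of_bound 1 ?_
  filter_upwards [h1] with z hz
  rw [one_mul, Real.norm_of_nonneg (by positivity), Real.norm_of_nonneg (by positivity)]
  exact pow_le_pow_of_le_one (norm_nonneg _) hz.le (by omega)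

theorem jetEq_congr {k : ℕ} {f f' g g' : R → X} {a : R} (hf : f' =ᶠ[𝓝 a] f) (hg : g' =ᶠ[𝓝 a] g)
    (h : JetEq E k f g a) : JetEq E k f' g' a := by
  have h1 : g' a = g a := hg.eq_of_nhds
  refine ⟨(hf.eq_of_nhds).trans (h.1.trans h1.symm), ?_⟩
  rw [h1]
  refine h.2.congr' ?_ EventuallyEq.rfl
  filter_upwards [hf, hg] with z h2 h3
  rw [h2, h3]

/-- Schwarz lemma of higher order.  Induction on `k` with `dslope h 0` and
`Complex.norm_dslope_le_div_of_mapsTo_ball`. -/
theorem norm_le_of_order {F : Type*} [NormedAddCommGroup F] [NormedSpace ℂ F] [CompleteSpace F]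
    (k : ℕ) : ∀ {h : ℂ → F} {r M : ℝ}, 0 < r → 0 ≤ M → DifferentiableOn ℂ h (ball 0 r) →
      (∀ z ∈ ball (0 : ℂ) r, ‖h z‖ ≤ M) → (h =O[𝓝 0] fun z => ‖z‖ ^ k) →
      ∀ z ∈ ball (0 : ℂ) r, ‖h z‖ ≤ M * (‖z‖ / r) ^ k := by
  induction k with
  | zero =>
    intro h r M _ _ _ hb _ z hz
    simpa using hb z hz
  | succ k ih =>
    intro h r M hr hM hd hb hO z hz
    have h0n : ball (0 : ℂ) r ∈ 𝓝 (0 : ℂ) := ball_mem_nhds 0 hr
    obtain ⟨C, hC⟩ := hO.bound
    have h0 : h 0 = 0 := by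
      have := hC.self_of_nhds
      simpa using this
    set g : ℂ → F := dslope h 0 with hg
    have hgd : DifferentiableOn ℂ g (ball 0 r) := (Complex.differentiableOn_dslope h0n).mpr hd
    have hgb : ∀ z ∈ ball (0 : ℂ) r, ‖g z‖ ≤ M / r := by
      intro z hz
      have hmaps : MapsTo h (ball 0 r) (closedBall (h 0) M) := by
        intro w hw
        rw [h0, mem_closedBall_zero_iff]
        exact hb w hw
      exact Complex.norm_dslope_le_div_of_mapsTo_ball hd hmaps hz
    have hgc : ContinuousAt g 0 := hgd.continuousOn.continuousAt h0n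
    have hgO : g =O[𝓝 0] fun z => ‖z‖ ^ k := by
      have hne : ∀ᶠ z in 𝓝[≠] (0 : ℂ), ‖g z‖ ≤ C * ‖z‖ ^ k := by
        have h1 : ∀ᶠ z in 𝓝[≠] (0 : ℂ), ‖h z‖ ≤ C * ‖‖z‖ ^ (k + 1)‖ := hC.filter_mono nhdsWithin_le_nhds
        filter_upwards [h1, self_mem_nhdsWithin] with w hw hw0
        have hw0' : w ≠ 0 := hw0
        have hwn : 0 < ‖w‖ := norm_pos_iff.mpr hw0'
        rw [hg, dslope_of_ne _ hw0', slope_def_module, norm_smul, norm_inv, sub_zero, h0, sub_zero]
        rw [Real.norm_of_nonneg (by positivity)] at hw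
        calc ‖w‖⁻¹ * ‖h w‖ ≤ ‖w‖⁻¹ * (C * ‖w‖ ^ (k + 1)) := by gcongr
          _ = C * ‖w‖ ^ k := by
            rw [pow_succ]
            field_simp
      have h0' : ‖g 0‖ ≤ C * ‖(0 : ℂ)‖ ^ k := by
        have t1 : Tendsto (fun z => ‖g z‖) (𝓝[≠] 0) (𝓝 ‖g 0‖) :=
          (hgc.tendsto.norm).mono_left nhdsWithin_le_nhds
        have t2 : Tendsto (fun z : ℂ => C * ‖z‖ ^ k) (𝓝[≠] 0) (𝓝 (C * ‖(0 : ℂ)‖ ^ k)) := by
          have : Continuous fun z : ℂ => C * ‖z‖ ^ k := by fun_prop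
          exact (this.tendsto 0).mono_left nhdsWithin_le_nhds
        exact le_of_tendsto_of_tendsto t1 t2 hne
      refine IsBigO.of_bound C ?_
      rw [eventually_nhdsWithin_iff] at hne
      filter_upwards [hne] with w hw
      rw [Real.norm_of_nonneg (by positivity)]
      by_cases hw0 : w = 0
      · rw [hw0]; exact h0'
      · exact hw hw0
    have h3 := ih hr (by positivity : 0 ≤ M / r) hgd hgb hgO z hz
    have h4 : h z = z • g z := by
      have := sub_smul_dslope h 0 z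
      rw [sub_zero, h0, sub_zero] at this
      exact this.symm
    rw [h4, norm_smul]
    calc ‖z‖ * ‖g z‖ ≤ ‖z‖ * (M / r * (‖z‖ / r) ^ k) := by gcongr
      _ = M * (‖z‖ / r) ^ (k + 1) := by
        rw [pow_succ]
        field_simp

end

section

variable {R : Type*} [TopologicalSpace R] [T2Space R] [ChartedSpace ℂ R]
  [IsManifold (modelWithCornersSelf ℂ ℂ) ω R]
variable {E : Type*} [NormedAddCommGroup E] [NormedSpace ℂ E] [CompleteSpace E]
variable {X : Type*} [MetricSpace X] [ChartedSpace E X] [IsManifold (modelWithCornersSelf ℂ E) ω X]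

/-- Jets pass to locally uniform limits of holomorphic maps.  Proof: in the charts at `a` and at
`f a = F a`, on a small disc around `a`, `h n := φ (g n) - φ f` is bounded by one constant `M`
for all large `n` and is `O (|z - a| ^ (k+1))`; so `‖h n z‖ ≤ M (|z-a|/r)^(k+1)` by
`norm_le_of_order`; let `n → ∞`. -/
theorem jetEq_limit {V : Set R} (hV : IsOpen V) {a : R} (ha : a ∈ V) {k : ℕ} {g : ℕ → R → X}
    {F f : R → X} (hg : ∀ n, HolOn E (g n) V) (hf : HolOn E f V)
    (hlim : TendstoLocallyUniformlyOn g F atTop V) (hj : ∀ n, JetEq E k (g n) f a) :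
    JetEq E k F f a := by
  set e := chartAt ℂ a with he
  set ψ := chartAt E (f a) with hψ
  have heR : e ∈ RChart R := IsManifold.chart_mem_maximalAtlas a
  have hψX : ψ ∈ XChart E X := IsManifold.chart_mem_maximalAtlas (f a)
  have hae : a ∈ e.source := mem_chart_source ℂ a
  have hfψ : f a ∈ ψ.source := mem_chart_source E (f a)
  have hFa : F a = f a := by
    have h1 : Tendsto (fun n => g n a) atTop (𝓝 (F a)) := hlim.tendsto_at ha
    have h2 : (fun n => g n a) = fun _ => f a := funext fun n => (hj n).1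
    rw [h2] at h1
    exact tendsto_nhds_unique h1 tendsto_const_nhds |>.symm ▸ rfl
  refine ⟨hFa, ?_⟩
  -- a neighbourhood `W` of `f a` where `ψ` is bounded
  have hW : {x : X | x ∈ ψ.source ∧ ψ x ∈ ball (ψ (f a)) 1} ∈ 𝓝 (f a) := by
    have h1 : ψ.source ∈ 𝓝 (f a) := ψ.open_source.mem_nhds hfψ
    have h2 : ∀ᶠ x in 𝓝 (f a), ψ x ∈ ball (ψ (f a)) 1 :=
      (ψ.continuousAt hfψ).eventually (ball_mem_nhds _ one_pos)
    exact inter_mem h1 h2
  obtain ⟨ε, hε, hball⟩ := Metric.mem_nhds_iff.mp hW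
  have hVn : V ∈ 𝓝 a := hV.mem_nhds ha
  have hFc : ContinuousAt F a := by
    have h1 : ContinuousOn F V :=
      hlim.continuousOn (Frequently.of_forall fun n => (hg n).continuousOn)
    exact h1.continuousAt hVn
  have hfc : ContinuousAt f a := (hf.continuousOn).continuousAt hVn
  have hF2 : ∀ᶠ z in 𝓝 a, dist (F z) (f a) < ε / 2 := by
    have := hFc.tendsto
    rw [hFa] at this
    exact this.eventually (ball_mem_nhds _ (half_pos hε))
  have hf2 : ∀ᶠ z in 𝓝 a, dist (f z) (f a) < ε := hfc.eventually (ball_mem_nhds _ hε)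
  obtain ⟨t, ht, hN⟩ := (Metric.tendstoLocallyUniformlyOn_iff.mp hlim) (ε / 2) (half_pos hε) a ha
  have ht' : t ∈ 𝓝 a := by rwa [hV.nhdsWithin_eq ha] at ht
  obtain ⟨N, hN⟩ := eventually_atTop.mp hN
  -- the open set `U0`
  have hall : V ∩ e.source ∩ (t ∩ ({z | dist (F z) (f a) < ε / 2} ∩ {z | dist (f z) (f a) < ε}))
      ∈ 𝓝 a := inter_mem (inter_mem hVn (e.open_source.mem_nhds hae))
        (inter_mem ht' (inter_mem hF2 hf2))
  obtain ⟨U0, hU0s, hU0o, haU0⟩ := mem_nhds_iff.mp hall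
  have hgW : ∀ n ≥ N, ∀ z ∈ U0, g n z ∈ ball (f a) ε := by
    intro n hn z hz
    have h1 := hN n hn z (hU0s hz).2.1
    have h2 : dist (F z) (f a) < ε / 2 := (hU0s hz).2.2.1
    rw [mem_ball]
    calc dist (g n z) (f a) ≤ dist (g n z) (F z) + dist (F z) (f a) := dist_triangle _ _ _
      _ < ε / 2 + ε / 2 := add_lt_add (by rwa [dist_comm]) h2
      _ = ε := add_halves ε
  have hFW : ∀ z ∈ U0, F z ∈ ball (f a) ε := by
    intro z hz
    have h2 : dist (F z) (f a) < ε / 2 := (hU0s hz).2.2.1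
    rw [mem_ball]
    linarith
  have hfW : ∀ z ∈ U0, f z ∈ ball (f a) ε := fun z hz => (hU0s hz).2.2.2
  have hH : ∀ n ≥ N, HolOn E (fun z => ψ (g n z) - ψ (f z)) U0 := by
    intro n hn
    refine holOn_sub ?_ ?_
    · exact holOn_chart_comp hψX ((hg n).mono fun z hz => (hU0s hz).1.1)
        (fun z hz => (hball (hgW n hn z hz)).1)
    · exact holOn_chart_comp hψX (hf.mono fun z hz => (hU0s hz).1.1)
        (fun z hz => (hball (hfW z hz)).1)
  have hU0e : U0 ⊆ e.source := fun z hz => (hU0s hz).1.2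
  have hopen : IsOpen (e.target ∩ e.symm ⁻¹' U0) := e.isOpen_inter_preimage_symm hU0o
  have hmem : e a ∈ e.target ∩ e.symm ⁻¹' U0 :=
    ⟨e.map_source hae, by rw [mem_preimage, e.left_inv hae]; exact haU0⟩
  obtain ⟨r, hr, hrb⟩ := Metric.isOpen_iff.mp hopen _ hmem
  have htr : ∀ ζ ∈ ball (0 : ℂ) r, e a + ζ ∈ ball (e a) r := by
    intro ζ hζ
    rw [mem_ball_iff_norm, add_sub_cancel_left]
    exact mem_ball_zero_iff.mp hζ
  have hbound : ∀ n ≥ N, ∀ ζ ∈ ball (0 : ℂ) r,
      ‖ψ (g n (e.symm (e a + ζ))) - ψ (f (e.symm (e a + ζ)))‖ ≤ 2 * (‖ζ‖ / r) ^ (k + 1) := by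
    intro n hn
    refine norm_le_of_order (k + 1) (M := 2)
      (h := fun ζ => ψ (g n (e.symm (e a + ζ))) - ψ (f (e.symm (e a + ζ)))) hr (by norm_num) ?_ ?_ ?_
    · have h1 := (holOn_iff_inChart heR hU0o hU0e).mp (hH n hn)
      have h2 : DifferentiableOn ℂ (fun ζ : ℂ => e a + ζ) (ball 0 r) := by fun_prop
      refine h1.comp h2 ?_
      intro ζ hζ
      have h3 := hrb (htr ζ hζ)
      exact ⟨e.symm (e a + ζ), h3.2, e.right_inv h3.1⟩
    · intro ζ hζ
      have h3 := hrb (htr ζ hζ)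
      have h4 := (hball (hgW n hn _ h3.2)).2
      have h5 := (hball (hfW _ h3.2)).2
      rw [mem_ball_iff_norm] at h4 h5
      have h6 : ψ (g n (e.symm (e a + ζ))) - ψ (f (e.symm (e a + ζ))) =
          (ψ (g n (e.symm (e a + ζ))) - ψ (f a)) - (ψ (f (e.symm (e a + ζ))) - ψ (f a)) := by abel
      rw [h6]
      refine (norm_sub_le _ _).trans ?_
      linarith
    · have h1 : Tendsto (fun ζ : ℂ => e.symm (e a + ζ)) (𝓝 0) (𝓝 a) := by
        have h2 : ContinuousAt e.symm (e a) := e.continuousAt_symm (e.map_source hae)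
        have h3 : Tendsto (fun ζ : ℂ => e a + ζ) (𝓝 0) (𝓝 (e a)) := by
          have : Continuous fun ζ : ℂ => e a + ζ := by fun_prop
          have h4 := this.tendsto 0
          simpa using h4
        have h4 := h2.tendsto.comp h3
        rwa [e.left_inv hae] at h4
      have h2 := (hj n).2.comp_tendsto h1
      refine h2.congr' (Eventually.of_forall fun ζ => rfl) ?_
      filter_upwards [ball_mem_nhds (0 : ℂ) hr] with ζ hζ
      have h3 := hrb (htr ζ hζ)
      have h4 : e (e.symm (e a + ζ)) - e a = ζ := by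
        rw [e.right_inv h3.1, add_sub_cancel_left]
      change ‖e (e.symm (e a + ζ)) - e a‖ ^ (k + 1) = ‖ζ‖ ^ (k + 1)
      rw [h4]
  -- the limit
  have hlim2 : ∀ ζ ∈ ball (0 : ℂ) r,
      ‖ψ (F (e.symm (e a + ζ))) - ψ (f (e.symm (e a + ζ)))‖ ≤ 2 * (‖ζ‖ / r) ^ (k + 1) := by
    intro ζ hζ
    have h3 := hrb (htr ζ hζ)
    have h4 : Tendsto (fun n => g n (e.symm (e a + ζ))) atTop (𝓝 (F (e.symm (e a + ζ)))) :=
      hlim.tendsto_at (hU0s h3.2).1.1
    have h5 : ContinuousAt ψ (F (e.symm (e a + ζ))) :=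
      ψ.continuousAt (hball (hFW _ h3.2)).1
    have h6 := ((h5.tendsto.comp h4).sub_const (ψ (f (e.symm (e a + ζ))))).norm
    refine le_of_tendsto h6 ?_
    filter_upwards [eventually_ge_atTop N] with n hn
    exact hbound n hn ζ hζ
  refine IsBigO.of_bound (2 / r ^ (k + 1)) ?_
  have hev : ∀ᶠ z in 𝓝 a, z ∈ e.source ∧ e z ∈ ball (e a) r := by
    refine Eventually.and (e.open_source.mem_nhds hae) ?_
    exact (e.continuousAt hae).eventually (ball_mem_nhds _ hr)
  filter_upwards [hev] with z hz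
  have h1 : e z - e a ∈ ball (0 : ℂ) r := by
    rw [mem_ball_zero_iff]
    exact mem_ball_iff_norm.mp hz.2
  have h2 := hlim2 _ h1
  rw [add_sub_cancel, e.left_inv hz.1] at h2
  rw [Real.norm_of_nonneg (by positivity)]
  change ‖ψ (F z) - ψ (f z)‖ ≤ 2 / r ^ (k + 1) * ‖e z - e a‖ ^ (k + 1)
  refine h2.trans (le_of_eq ?_)
  rw [div_pow]
  ring

end

end Pool.Agent.W_4d259d_h80
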