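import Pool.Agent.W_4d259d_h80.Disc
import Pool.Agent.W_4d259d_h80.Jet

/-!
# MP_4d259d_ag, block EX: induction over the bumps
-/

noncomputable section

set_option linter.unusedSectionVars false

namespace Pool.Agent.W_4d259d_h80

open Set Filter Topology Manifold Metric MeasureTheory TopologicalSpace
open scoped ContDiff
open Pool.Agent.W_4d259d_h46.Defs Pool.Agent.W_4d259d_h46 Pool.Agent.W_4d259d_h44

section

variable {R : Type} [TopologicalSpace R] [T2Space R] [ChartedSpace ℂ R]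
  [IsManifold (modelWithCornersSelf ℂ ℂ) ω R]
variable {E : Type} [NormedAddCommGroup E] [NormedSpace ℂ E]
variable {X : Type} [MetricSpace X] [ChartedSpace E X]

/-- Induction over a finite set `b` of bumps (`Set.Finite.induction_on`), starting with `A0`,
`F = f`, no discs.  Step: `BumpThm` for `A = A0 ∪ ⋃₀ b`, the new bump `B` and `ε` gives `ε1`;
induction hypothesis with `min ε ε1`; then `BumpThm` with `H0 := ⋃₀ s` (closed, in the interior
of `A`); new discs `s ∪ s'`. -/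
theorem bump_induction (hBump : BumpThm R E X) (f : C(R, X)) (U : Opens R) (hf : HolOn E f U)
    {A0 : Set R} (hA0 : IsCompact A0) (hA0U : A0 ⊆ U) (hA0n : NullSet (frontier A0))
    {Λ : Set R} (hΛ : Λ.Finite) (hΛA : Λ ⊆ interior A0) (b : Set (Set R)) (hb : b.Finite)
    (hB : ∀ B ∈ b, IsCompact B ∧ NullSet (frontier B) ∧ (∃ e ∈ DChart R, B ⊆ halfOf e) ∧
      ∃ φ ∈ XChart E X, ∀ z ∈ B, f z ∈ φ.source) :
    IsCompact (A0 ∪ ⋃₀ b) ∧ NullSet (frontier (A0 ∪ ⋃₀ b)) ∧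
    ∀ ε > 0, ∀ k : ℕ, ∃ (W : Opens R) (F : R → X) (s : Set (Set R)),
      A0 ∪ ⋃₀ b ⊆ W ∧ HolOn E F W ∧ DiscFam s ∧
      (∀ D ∈ s, D ⊆ interior (A0 ∪ ⋃₀ b) ∧ Disjoint D A0 ∧
        ∀ z ∈ D, ∀ z' ∈ D, dist (f z) (f z') < ε) ∧
      (∀ z ∈ (W : Set R) \ ⋃₀ s, dist (F z) (f z) < ε) ∧ ∀ l ∈ Λ, JetEq E k F f l := by
  induction b, hb using Set.Finite.induction_on with
  | empty =>
    rw [sUnion_empty, union_empty]
    refine ⟨hA0, hA0n, ?_⟩
    intro ε hε k
    refine ⟨U, f, ∅, hA0U, hf, discFam_empty, by simp, ?_, fun l _ => jetEq_refl k _ l⟩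
    intro z _
    rw [dist_self]
    exact hε
  | @insert B b hBb hbf ih =>
    obtain ⟨hAc, hAn, hIH⟩ := ih fun B' hB' => hB B' (mem_insert_of_mem _ hB')
    obtain ⟨hBc, hBn, ⟨e, he, hBe⟩, φ, hφ, hfφ⟩ := hB B (mem_insert _ _)
    have hun : A0 ∪ ⋃₀ (insert B b) = (A0 ∪ ⋃₀ b) ∪ B := by
      rw [sUnion_insert, union_comm B, union_assoc]
    rw [hun]
    refine ⟨hAc.union hBc, nullSet_frontier_union hAn hBn, ?_⟩
    intro ε hε k
    obtain ⟨ε1, hε1, hbump⟩ := hBump f (A0 ∪ ⋃₀ b) B hAc hBc hAn hBn e he hBe φ hφ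
      (fun z hz => hfφ z (hBc.isClosed.closure_subset_iff.2 sdiff_subset hz)) ε hε
    obtain ⟨W, F, s, hAW, hF, hs, hs1, hd, hj⟩ := hIH (min ε ε1) (lt_min hε hε1) k
    have hsA : ⋃₀ s ⊆ interior (A0 ∪ ⋃₀ b) := sUnion_subset fun D hD => (hs1 D hD).1
    have hΛA' : Λ ⊆ interior (A0 ∪ ⋃₀ b) :=
      hΛA.trans (interior_mono subset_union_left)
    obtain ⟨W', F', s', hAW', hF', hs', hs1', hd', hj'⟩ := hbump Λ hΛ hΛA' k W hAW F hF (⋃₀ s)
      (discFam_isClosed hs) hsA (fun z hz => (hd z hz).trans_le (min_le_right _ _))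
    have hintA : interior (A0 ∪ ⋃₀ b) ⊆ interior ((A0 ∪ ⋃₀ b) ∪ B) :=
      interior_mono subset_union_left
    have hintB : interior B ⊆ interior ((A0 ∪ ⋃₀ b) ∪ B) :=
      interior_mono subset_union_right
    refine ⟨W', F', s ∪ s', hAW', hF', discFam_union hs hs' ?_, ?_, ?_, ?_⟩
    · intro D hD D' hD'
      refine disjoint_left.2 fun z hz hz' => ?_
      exact ((hs1' D' hD').1 hz').2 (interior_subset ((hs1 D hD).1 hz))
    · rintro D (hD | hD)
      · refine ⟨(hs1 D hD).1.trans hintA, (hs1 D hD).2.1, fun z hz z' hz' => ?_⟩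
        exact ((hs1 D hD).2.2 z hz z' hz').trans_le (min_le_left _ _)
      · refine ⟨fun z hz => hintB ((hs1' D hD).1 hz).1, ?_, (hs1' D hD).2⟩
        refine disjoint_left.2 fun z hz hz' => ?_
        exact ((hs1' D hD).1 hz).2 (Or.inl hz')
    · rintro z ⟨hz, hzs⟩
      refine hd' z ⟨hz, ?_⟩
      rwa [sUnion_union] at hzs
    · intro l hl
      exact jetEq_trans (hj' l hl) (hj l hl)

end

end Pool.Agent.W_4d259d_h80
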