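import Pool.Agent.W_4d259d_h44.Iface
import Pool.Agent.W_4d259d_h44.ApiB
import Pool.Agent.W_4d259d_h87.DCh

/-!
# MP_4d259d_ag, block EX: closed coordinate discs and null sets
-/

noncomputable section

set_option linter.unusedSectionVars false

namespace Pool.Agent.W_4d259d_h80

open Set Filter Topology Manifold Metric MeasureTheory TopologicalSpace
open scoped ContDiff
open Pool.Agent.W_4d259d_h46.Defs Pool.Agent.W_4d259d_h46 Pool.Agent.W_4d259d_h44

section

variable {R : Type*} [TopologicalSpace R] [T2Space R] [ChartedSpace ℂ R]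
  [IsManifold (modelWithCornersSelf ℂ ℂ) ω R]

theorem cdisc_isCompact {B : Set R} (h : IsCDisc B) : IsCompact B := by
  obtain ⟨e, _, c, r, _, ht, rfl⟩ := h
  exact W_4d259d_h87.symm_isCompact ht

theorem cdisc_isClosed {B : Set R} (h : IsCDisc B) : IsClosed B := by
  exact (cdisc_isCompact h).isClosed

theorem discFam_isCompact {s : Set (Set R)} (h : DiscFam s) : IsCompact (⋃₀ s) := by
  exact h.1.isCompact_sUnion fun D hD => cdisc_isCompact (h.2.1 D hD)

theorem discFam_isClosed {s : Set (Set R)} (h : DiscFam s) : IsClosed (⋃₀ s) := by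
  exact (discFam_isCompact h).isClosed

theorem discFam_empty : DiscFam (∅ : Set (Set R)) := by
  exact ⟨finite_empty, fun D hD => absurd hD (notMem_empty D), pairwiseDisjoint_empty⟩

theorem discFam_union {s t : Set (Set R)} (hs : DiscFam s) (ht : DiscFam t)
    (h : ∀ D ∈ s, ∀ D' ∈ t, Disjoint D D') : DiscFam (s ∪ t) := by
  refine ⟨hs.1.union ht.1, ?_, ?_⟩
  · rintro D (hD | hD)
    · exact hs.2.1 D hD
    · exact ht.2.1 D hD
  · rw [pairwiseDisjoint_union]
    exact ⟨hs.2.2, ht.2.2, fun D hD D' hD' _ => h D hD D' hD'⟩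

/-! ### Null sets -/

theorem nullSet_empty : NullSet (∅ : Set R) := by
  intro e _
  rw [empty_inter, image_empty, measure_empty]

theorem nullSet_mono {S T : Set R} (h : NullSet T) (hST : S ⊆ T) : NullSet S := by
  intro e he
  exact measure_mono_null (image_mono (inter_subset_inter_left _ hST)) (h e he)

theorem nullSet_union {S T : Set R} (hS : NullSet S) (hT : NullSet T) : NullSet (S ∪ T) := by
  intro e he
  rw [union_inter_distrib_right, image_union]
  exact measure_union_null (hS e he) (hT e he)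

theorem nullSet_frontier_union {A B : Set R} (hA : NullSet (frontier A))
    (hB : NullSet (frontier B)) : NullSet (frontier (A ∪ B)) := by
  refine nullSet_mono (nullSet_union hA hB) ((frontier_union_subset A B).trans ?_)
  exact union_subset_union inter_subset_left inter_subset_right

/-- Proof: `B = e.symm '' closedBall c r` is compact; `e.symm '' ball c r` is open, so
`frontier B ⊆ e.symm '' sphere c r`; in a chart `e'` the set
`e' '' (e.symm '' sphere c r ∩ e'.source)` is the image of a subset of the null set `sphere c r`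
under the differentiable map `e' ∘ e.symm`
(`addHaar_image_eq_zero_of_differentiableOn_of_addHaar_eq_zero`, real scalars, or
`transition_diff` of `ApiB` with `restrictScalars`). -/
theorem cdisc_nullSet_frontier {B : Set R} (h : IsCDisc B) : NullSet (frontier B) := by
  have hcl := cdisc_isClosed h
  obtain ⟨e, he, c, r, hr, ht, rfl⟩ := h
  have hsub : frontier (e.symm '' closedBall c r) ⊆ e.symm '' sphere c r := by
    rw [hcl.frontier_eq]
    rintro _ ⟨⟨ζ, hζ, rfl⟩, hni⟩
    refine mem_image_of_mem _ ?_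
    by_contra hcon
    apply hni
    refine mem_interior.2 ⟨e.symm '' ball c r, image_mono ball_subset_closedBall,
      W_4d259d_h87.symm_isOpen (ball_subset_closedBall.trans ht), mem_image_of_mem _ ?_⟩
    rw [mem_ball]
    rw [mem_closedBall] at hζ
    rw [mem_sphere] at hcon
    exact lt_of_le_of_ne hζ hcon
  refine nullSet_mono ?_ hsub
  intro e' he'
  have hdiff : DifferentiableOn ℝ (fun p => e' (e.symm p))
      (sphere c r ∩ e.symm ⁻¹' e'.source) := by
    have h1 := (transition_diff (E := ℂ) (X := R) he he').restrictScalars ℝ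
    refine h1.mono ?_
    rintro ζ ⟨h2, h3⟩
    rw [OpenPartialHomeomorph.trans_source]
    exact ⟨ht (sphere_subset_closedBall h2), h3⟩
  have h0 : volume (sphere c r ∩ e.symm ⁻¹' e'.source) = 0 :=
    measure_mono_null inter_subset_left (Measure.addHaar_sphere_of_ne_zero _ _ hr.ne')
  have h4 := addHaar_image_eq_zero_of_differentiableOn_of_addHaar_eq_zero volume hdiff h0
  refine measure_mono_null ?_ h4
  rintro _ ⟨_, ⟨⟨ζ, hζ, rfl⟩, h5⟩, rfl⟩
  exact ⟨ζ, ⟨hζ, h5⟩, rfl⟩

/-! ### Small discs -/

theorem halfOf_isCDisc {e : OpenPartialHomeomorph R ℂ} (he : e ∈ DChart R) :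
    IsCDisc (halfOf e) := by
  exact ⟨e, he.1, 0, 1 / 2, by norm_num,
    (closedBall_subset_closedBall (by norm_num)).trans he.2, rfl⟩

/-- Small disc charts: compose the chart at `z`, restricted to a neighbourhood, with an affine
map of the plane. -/
theorem exists_dchart {z : R} {U : Set R} (hU : U ∈ 𝓝 z) :
    ∃ e ∈ DChart R, e.source ⊆ U ∧ z ∈ interior (halfOf e) := by
  obtain ⟨e, he, h1, h2, h3⟩ := W_4d259d_h87.exists_dchart0 hU
  refine ⟨e, he, h1, mem_interior.2 ⟨e.symm '' ball 0 (1 / 2), image_mono ball_subset_closedBall,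
    W_4d259d_h87.symm_isOpen ((ball_subset_closedBall.trans
      (closedBall_subset_closedBall (by norm_num))).trans he.2), ?_⟩⟩
  have h4 : z = e.symm 0 := by rw [← h3, e.left_inv h2]
  rw [h4]
  exact mem_image_of_mem _ (mem_ball_self (by norm_num))

theorem halfOf_subset_source {e : OpenPartialHomeomorph R ℂ} (he : e ∈ DChart R) :
    halfOf e ⊆ e.source := by
  rintro _ ⟨ζ, hζ, rfl⟩
  exact e.map_target (he.2 (closedBall_subset_closedBall (by norm_num) hζ))

/-- Finite covers by small half discs. -/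
theorem exists_half_cover {T : Set R} (hT : IsCompact T) (O : R → Set R)
    (hO : ∀ z ∈ T, O z ∈ 𝓝 z) :
    ∃ (t : Finset R) (e : R → OpenPartialHomeomorph R ℂ), (∀ z ∈ t, z ∈ T ∧ e z ∈ DChart R ∧
      (e z).source ⊆ O z) ∧ T ⊆ ⋃ z ∈ t, interior (halfOf (e z)) := by
  classical
  have h := fun z : T => exists_dchart (hO z.1 z.2)
  choose e he hes hez using h
  obtain ⟨e', he'⟩ : ∃ e' : R → OpenPartialHomeomorph R ℂ, ∀ z (hz : z ∈ T), e' z = e ⟨z, hz⟩ :=
    ⟨fun z => if hz : z ∈ T then e ⟨z, hz⟩ else chartAt ℂ z, fun z hz => dif_pos hz⟩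
  obtain ⟨t, ht, hTt⟩ := hT.elim_nhds_subcover (fun z => interior (halfOf (e' z)))
    (fun z hz => isOpen_interior.mem_nhds (by rw [he' z hz]; exact hez ⟨z, hz⟩))
  refine ⟨t, e', fun z hz => ⟨ht z hz, ?_, ?_⟩, hTt⟩
  · rw [he' z (ht z hz)]; exact he _
  · rw [he' z (ht z hz)]; exact hes _

/-- A compact set in an open set `W` is in the interior of a compact subset of `W` with null
frontier (a finite union of closed discs). -/
theorem exists_compact_null {T : Set R} (hT : IsCompact T) {W : Set R} (hW : IsOpen W)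
    (hTW : T ⊆ W) : ∃ K0 : Set R, IsCompact K0 ∧ T ⊆ interior K0 ∧ K0 ⊆ W ∧
      NullSet (frontier K0) := by
  obtain ⟨t, e, h1, h2⟩ := exists_half_cover hT (fun _ => W)
    (fun z hz => hW.mem_nhds (hTW hz))
  refine ⟨⋃ z ∈ t, halfOf (e z), t.isCompact_biUnion fun z hz =>
    cdisc_isCompact (halfOf_isCDisc (h1 z hz).2.1), ?_, ?_, ?_⟩
  · intro z hz
    obtain ⟨w, hw, hzw⟩ := mem_iUnion₂.1 (h2 hz)
    exact interior_mono (subset_biUnion_of_mem (u := fun z => halfOf (e z))
      (show w ∈ (t : Set R) from hw)) hzw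
  · intro z hz
    obtain ⟨w, hw, hzw⟩ := mem_iUnion₂.1 hz
    exact (h1 w hw).2.2 (halfOf_subset_source (h1 w hw).2.1 hzw)
  · have h3 : ∀ t' : Finset R, t' ⊆ t → NullSet (frontier (⋃ z ∈ t', halfOf (e z))) := by
      classical
      intro t'
      induction t' using Finset.induction_on with
      | empty =>
        intro _
        simp only [Finset.notMem_empty, iUnion_of_empty, iUnion_empty, frontier_empty]
        exact nullSet_empty
      | insert a t' _ ih =>
        intro hsub
        rw [Finset.set_biUnion_insert]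
        exact nullSet_frontier_union
          (cdisc_nullSet_frontier (halfOf_isCDisc (h1 a (hsub (Finset.mem_insert_self a t'))).2.1))
          (ih fun z hz => hsub (Finset.mem_insert_of_mem hz))
    exact h3 t Finset.Subset.rfl

variable {E : Type*} [NormedAddCommGroup E] [NormedSpace ℂ E]
variable {X : Type*} [MetricSpace X] [ChartedSpace E X] [IsManifold (modelWithCornersSelf ℂ E) ω X]

/-- Cover of a compact set by finitely many small closed discs on each of which `f` has values in
one chart of `X`. -/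
theorem exists_disc_cover (E : Type*) [NormedAddCommGroup E] [NormedSpace ℂ E]
    {X : Type*} [MetricSpace X] [ChartedSpace E X] [IsManifold (modelWithCornersSelf ℂ E) ω X]
    (f : C(R, X)) {T : Set R} (hT : IsCompact T) {W : Set R} (hW : IsOpen W) (hTW : T ⊆ W) :
    ∃ b : Set (Set R), b.Finite ∧ T ⊆ ⋃₀ b ∧ ∀ B ∈ b, B ⊆ W ∧ IsCompact B ∧
      NullSet (frontier B) ∧ (∃ e ∈ DChart R, B ⊆ halfOf e) ∧
      ∃ φ ∈ XChart E X, ∀ z ∈ B, f z ∈ φ.source := by
  obtain ⟨t, e, h1, h2⟩ := exists_half_cover hT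
    (fun z => W ∩ f ⁻¹' (chartAt E (f z)).source)
    (fun z hz => Filter.inter_mem (hW.mem_nhds (hTW hz))
      (f.continuous.continuousAt.preimage_mem_nhds
        ((chartAt E (f z)).open_source.mem_nhds (mem_chart_source E (f z)))))
  refine ⟨(fun z => halfOf (e z)) '' (t : Set R), t.finite_toSet.image _, ?_, ?_⟩
  · intro z hz
    obtain ⟨w, hw, hzw⟩ := mem_iUnion₂.1 (h2 hz)
    exact mem_sUnion.2 ⟨_, mem_image_of_mem _ hw, interior_subset hzw⟩
  · rintro _ ⟨w, hw, rfl⟩
    obtain ⟨a1, a2, a3⟩ := h1 w hw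
    have a4 := (halfOf_subset_source a2).trans a3
    exact ⟨fun z hz => (a4 hz).1, cdisc_isCompact (halfOf_isCDisc a2),
      cdisc_nullSet_frontier (halfOf_isCDisc a2), ⟨e w, a2, subset_rfl⟩,
      chartAt E (f w), IsManifold.chart_mem_maximalAtlas _, fun z hz => (a4 hz).2⟩

/-- Cover of a compact set by finitely many patches `(P, O)`, `P ⊆ O`, `P` compact, `O` open with
compact closure inside `W`, `f (closure O)` inside one chart of `X`. -/
theorem exists_patch_cover (E : Type*) [NormedAddCommGroup E] [NormedSpace ℂ E]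
    {X : Type*} [MetricSpace X] [ChartedSpace E X] [IsManifold (modelWithCornersSelf ℂ E) ω X]
    (f : C(R, X)) {T : Set R} (hT : IsCompact T) {W : Set R} (hW : IsOpen W) (hTW : T ⊆ W) :
    ∃ b : Set (Set R × Set R), b.Finite ∧ (T ⊆ ⋃ p ∈ b, p.1) ∧ ∀ p ∈ b, IsCompact p.1 ∧
      p.1 ⊆ p.2 ∧ IsOpen p.2 ∧ IsCompact (closure p.2) ∧ closure p.2 ⊆ W ∧
      ∃ φ ∈ XChart E X, ∀ z ∈ closure p.2, f z ∈ φ.source := by
  obtain ⟨t, e, h1, h2⟩ := exists_half_cover hT
    (fun z => W ∩ f ⁻¹' (chartAt E (f z)).source)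
    (fun z hz => Filter.inter_mem (hW.mem_nhds (hTW hz))
      (f.continuous.continuousAt.preimage_mem_nhds
        ((chartAt E (f z)).open_source.mem_nhds (mem_chart_source E (f z)))))
  refine ⟨(fun z => (halfOf (e z), unitOf (e z))) '' (t : Set R), t.finite_toSet.image _, ?_, ?_⟩
  · intro z hz
    obtain ⟨w, hw, hzw⟩ := mem_iUnion₂.1 (h2 hz)
    exact mem_iUnion₂.2 ⟨_, mem_image_of_mem _ hw, interior_subset hzw⟩
  · rintro _ ⟨w, hw, rfl⟩
    obtain ⟨a1, a2, a3⟩ := h1 w hw
    have ht : closedBall (0 : ℂ) 1 ⊆ (e w).target :=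
      (closedBall_subset_closedBall (by norm_num)).trans a2.2
    have hcl : closure (unitOf (e w)) ⊆ (e w).symm '' closedBall 0 1 :=
      W_4d259d_h87.symm_closure ht
    have hcls : (e w).symm '' closedBall 0 1 ⊆ (e w).source := by
      rintro _ ⟨ζ, hζ, rfl⟩
      exact (e w).map_target (ht hζ)
    have a4 := (hcl.trans hcls).trans a3
    exact ⟨cdisc_isCompact (halfOf_isCDisc a2),
      image_mono (closedBall_subset_ball (by norm_num)),
      W_4d259d_h87.symm_isOpen (ball_subset_closedBall.trans ht),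
      (W_4d259d_h87.symm_isCompact ht).of_isClosed_subset isClosed_closure hcl,
      fun z hz => (a4 hz).1, chartAt E (f w), IsManifold.chart_mem_maximalAtlas _,
      fun z hz => (a4 hz).2⟩

end

end Pool.Agent.W_4d259d_h80
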