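import Pool.Agent.W_4d259d_h80.Bump
import Pool.Agent.W_4d259d_h80.Blend

/-!
# MP_4d259d_ag, block EX: the EXTENSION THEOREM from the bump theorem
-/

noncomputable section

set_option linter.unusedSectionVars false

namespace Pool.Agent.W_4d259d_h80

open Set Filter Topology Manifold Metric MeasureTheory TopologicalSpace
open scoped ContDiff
open Pool.Agent.W_4d259d_h46.Defs Pool.Agent.W_4d259d_h46 Pool.Agent.W_4d259d_h44

section

variable {E : Type*} [NormedAddCommGroup E] [NormedSpace ℂ E] [FiniteDimensional ℂ E]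
variable {X : Type*} [MetricSpace X]
variable {R : Type*} [TopologicalSpace R] [T2Space R] [LocallyCompactSpace R]

/-- The blend lemma applied to finitely many patches `(P, O)`: `f` is changed inside the union of
the sets `O` to a map `G` which is equal to `F'` near the compact set `T ⊆ ⋃ P`, `T ⊆ V`.
Induction over `b` (`Set.Finite.induction_on`); statement of the induction for all `T`; in the step
for the new patch `(P, O)`: `blend` for `(P ∩ T)`; the points of `V` where `G = F'` are kept. -/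
theorem blend_iterate (f : C(R, X)) (b : Set (Set R × Set R)) (hb : b.Finite)
    (hP : ∀ p ∈ b, IsCompact p.1 ∧ p.1 ⊆ p.2 ∧ IsOpen p.2 ∧ IsCompact (closure p.2) ∧
      ∃ φ : OpenPartialHomeomorph X E, ∀ z ∈ closure p.2, f z ∈ φ.source) :
    ∀ ε > 0, ∃ ε1 > 0, ∀ V : Set R, IsOpen V → ∀ F' : R → X, ContinuousOn F' V →
      (∀ z ∈ V, dist (F' z) (f z) < ε1) → ∀ T : Set R, IsCompact T → T ⊆ V → (T ⊆ ⋃ p ∈ b, p.1) →
      ∃ (G : C(R, X)) (N : Set R), IsOpen N ∧ T ⊆ N ∧ N ⊆ V ∧ (∀ z ∈ N, G z = F' z) ∧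
        (∀ z, (∀ p ∈ b, z ∉ p.2) → G z = f z) ∧ ∀ z, dist (G z) (f z) < ε := by
  induction b, hb using Set.Finite.induction_on with
  | empty =>
    intro ε hε
    refine ⟨ε, hε, ?_⟩
    intro V hV F' hF' hd T hT hTV hTb
    have hT0 : T = ∅ := by
      rw [eq_empty_iff_forall_notMem]
      intro z hz
      simpa using hTb hz
    subst hT0
    refine ⟨f, ∅, isOpen_empty, subset_rfl, empty_subset _, by simp, fun z _ => rfl, ?_⟩
    intro z
    rw [dist_self]
    exact hε
  | @insert p b hpb hbf ih =>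
    intro ε hε
    obtain ⟨hp1, hp12, hp2, hp2c, φ, hφ⟩ := hP p (mem_insert _ _)
    obtain ⟨ε1, hε1, hbl⟩ := blend f hp2 hp2c hφ hε
    obtain ⟨ε2, hε2, hit⟩ := ih (fun q hq => hP q (mem_insert_of_mem _ hq)) (min ε ε1)
      (lt_min hε hε1)
    refine ⟨min ε1 ε2, lt_min hε1 hε2, ?_⟩
    intro V hV F' hF' hd T hT hTV hTb
    -- split `T` in a part inside `p.1` and a part covered by the other patches
    obtain ⟨T1, T2, hT1, hT2, hT1p, hT2b, hTT⟩ : ∃ T1 T2 : Set R, IsCompact T1 ∧ IsCompact T2 ∧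
        T1 ⊆ p.1 ∧ (T2 ⊆ ⋃ q ∈ b, q.1) ∧ T = T1 ∪ T2 := by
      have hbc : IsCompact (⋃ q ∈ b, q.1) :=
        hbf.isCompact_biUnion fun q hq => (hP q (mem_insert_of_mem _ hq)).1
      refine ⟨T ∩ p.1, T ∩ ⋃ q ∈ b, q.1, hT.inter hp1, hT.inter hbc, inter_subset_right,
        inter_subset_right, ?_⟩
      rw [← inter_union_distrib_left]
      refine (inter_eq_left.2 ?_).symm
      rw [biUnion_insert] at hTb
      exact hTb
    obtain ⟨G, N, hN, hTN, hNV, hGN, hGf, hGd⟩ := hit V hV F' hF'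
      (fun z hz => (hd z hz).trans_le (min_le_right _ _)) T2 hT2
      (fun z hz => hTV (hTT ▸ Or.inr hz)) hT2b
    obtain ⟨G', H, Q, P', hQ, hQO, hHQ, hHd, hP', hTP', hP'V, hG'P', hkeep⟩ := hbl G
      (fun z _ => (hGd z).trans_le (min_le_right _ _)) V hV F' hF'
      (fun z hz => (hd z hz.1).trans_le (min_le_left _ _)) T1 hT1
      (fun z hz => ⟨hp12 (hT1p hz), hTV (hTT ▸ Or.inl hz)⟩)
    have hG'H : ∀ z, G' z = H (1, z) := fun z => (H.apply_one z).symm
    refine ⟨G', N ∪ P', hN.union hP', ?_, union_subset hNV hP'V, ?_, ?_, ?_⟩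
    · rw [hTT, union_comm N]
      exact union_subset_union hTP' hTN
    · rintro z (hz | hz)
      · exact hkeep z (hNV hz) (hGN z hz)
      · exact hG'P' z hz
    · intro z hz
      have hzQ : z ∉ Q := fun h => hz p (mem_insert _ _) (hQO h).1
      rw [hG'H, hHQ z hzQ]
      exact hGf z fun q hq => hz q (mem_insert_of_mem _ hq)
    · intro z
      by_cases hz : z ∈ p.2
      · rw [hG'H]
        exact hHd 1 z hz
      · have hzQ : z ∉ Q := fun h => hz (hQO h).1
        rw [hG'H, hHQ z hzQ]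
        exact (hGd z).trans_le (min_le_left _ _)

end

section

variable (R : Type) [TopologicalSpace R] [T2Space R] [ChartedSpace ℂ R]
  [IsManifold (modelWithCornersSelf ℂ ℂ) ω R]
variable (E : Type) [NormedAddCommGroup E] [NormedSpace ℂ E] [FiniteDimensional ℂ E]
variable (X : Type) [MetricSpace X] [ChartedSpace E X] [IsManifold (modelWithCornersSelf ℂ E) ω X]

/-- EXTENSION THEOREM.  Proof: `L1` a compact neighbourhood of `K ∪ L`, `L2` of `L1`;
`T := K ∪ (Λ ∩ L1)`; `A0` := compact set with null frontier, `T ⊆ interior A0`,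
`A0 ⊆ (U ∩ interior L2) \ ((Λ ∩ L2) \ T)` (`exists_compact_null`), so `Λ ∩ A0 ⊆ interior A0`;
`b` = disc cover of `L` inside `interior L1` (`exists_disc_cover`); `A := A0 ∪ ⋃₀ b`,
`Λ ∩ A ⊆ interior A0`; patches `p` covering `frontier A` inside `Λᶜ` (open) and inside
`(an open set with compact closure)` (`exists_patch_cover`); `C := A ∪ ⋃ closure p.2`.
Given `k, ε`: `ε1 ≤ ε` from `blend_iterate`; `bump_induction` with `min ε ε1` and the maximum of
`k` on `Λ ∩ A` gives `W, F, s`; `blend_iterate` with `V := W \ ⋃₀ s`, `T := frontier A` gives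
`G, N`; `g := F` on `A`, `G` off `A` (continuous: equal to `F` on `interior A ∪ N`, to `G` off `A`),
`U' := interior A ∪ N ∪ (U \ C)`. -/
theorem extThm_of (hB : BumpThm R E X) : ExtThm R E X := by
  haveI : LocallyCompactSpace R := ChartedSpace.locallyCompactSpace ℂ R
  intro f U hf K hK hKU Λ hΛU hΛ L hL
  -- the set `Λ` and its subsets are closed
  have hsub : ∀ S ⊆ Λ, IsClosed S := by
    intro S hS
    rw [← isOpen_compl_iff, isOpen_iff_mem_nhds]
    intro z hz
    obtain ⟨P, hP, hzP⟩ := exists_compact_mem_nhds z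
    have hfin : (S ∩ P).Finite := (hΛ P hP).subset (inter_subset_inter_left _ hS)
    have h1 : (S ∩ P)ᶜ ∈ 𝓝 z := hfin.isClosed.isOpen_compl.mem_nhds fun h => hz h.1
    filter_upwards [h1, hzP] with w hw hwP hwS
    exact hw ⟨hwS, hwP⟩
  -- `L1`
  obtain ⟨L1, hL1, hKL1⟩ := exists_compact_superset (hK.union hL)
  have hT : IsCompact (K ∪ (Λ ∩ L1)) := hK.union (hΛ L1 hL1).isCompact
  have hWo : IsOpen ((U : Set R) ∩ (Λ \ (K ∪ (Λ ∩ L1)))ᶜ) :=
    U.isOpen.inter (hsub _ sdiff_subset).isOpen_compl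
  obtain ⟨A0, hA0, hTA0, hA0W, hA0n⟩ := exists_compact_null hT hWo (by
    rintro z (hz | hz)
    · exact ⟨hKU hz, fun h => h.2 (Or.inl hz)⟩
    · exact ⟨hΛU hz.1, fun h => h.2 (Or.inr hz)⟩)
  obtain ⟨b, hb, hLb, hbB⟩ := exists_disc_cover E f hL (isOpen_interior (s := L1))
    (subset_union_right.trans hKL1)
  set A : Set R := A0 ∪ ⋃₀ b with hAdef
  have hΛA : Λ ∩ A ⊆ interior A0 := by
    rintro z ⟨hzΛ, hzA | ⟨B, hBb, hzB⟩⟩
    · have h1 := (hA0W hzA).2
      by_contra hcon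
      exact h1 ⟨hzΛ, fun h => hcon (hTA0 h)⟩
    · exact hTA0 (Or.inr ⟨hzΛ, interior_subset ((hbB B hBb).1 hzB)⟩)
  have hA0A : interior A0 ⊆ interior A := interior_mono subset_union_left
  obtain ⟨hAc, hAn, hind⟩ := bump_induction hB f U hf hA0 (fun z hz => (hA0W hz).1) hA0n
    (hΛ A0 hA0) (Λ := Λ ∩ A0) (fun z hz => hΛA ⟨hz.1, Or.inl hz.2⟩) b hb
    (fun B hBb => (hbB B hBb).2)
  have hfrc : IsCompact (frontier A) := hAc.of_isClosed_subset isClosed_frontier
    hAc.isClosed.frontier_subset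
  have hfrΛ : frontier A ⊆ Λᶜ := by
    intro z hz hzΛ
    have hzA : z ∈ A := hAc.isClosed.frontier_subset hz
    exact hz.2 (hA0A (hΛA ⟨hzΛ, hzA⟩))
  obtain ⟨p, hp, hfrp, hpP⟩ := exists_patch_cover E f hfrc (hsub Λ subset_rfl).isOpen_compl hfrΛ
  set C : Set R := A ∪ ⋃ q ∈ p, closure q.2 with hCdef
  have hCc : IsCompact C := hAc.union (hp.isCompact_biUnion fun q hq => (hpP q hq).2.2.2.1)
  refine ⟨C, hCc, ?_⟩
  intro k ε hε
  obtain ⟨ε1, hε1, hbl⟩ := blend_iterate (E := E) f p hp (fun q hq =>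
    ⟨(hpP q hq).1, (hpP q hq).2.1, (hpP q hq).2.2.1, (hpP q hq).2.2.2.1, by
      obtain ⟨φ, -, hφ⟩ := (hpP q hq).2.2.2.2.2
      exact ⟨φ, hφ⟩⟩) ε hε
  -- the maximum of `k`
  obtain ⟨kk, hkk⟩ : ∃ kk : ℕ, ∀ l ∈ Λ ∩ A0, k l ≤ kk := by
    obtain ⟨M, hM⟩ := ((hΛ A0 hA0).image k).bddAbove
    exact ⟨M, fun l hl => hM (mem_image_of_mem _ hl)⟩
  obtain ⟨W, F, s, hAW, hF, hs, hs1, hd, hj⟩ := hind (min ε ε1) (lt_min hε hε1) kk
  have hsc : IsClosed (⋃₀ s) := discFam_isClosed hs
  have hsA : ⋃₀ s ⊆ interior A := sUnion_subset fun D hD => (hs1 D hD).1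
  have hVo : IsOpen ((W : Set R) \ ⋃₀ s) := W.isOpen.sdiff hsc
  obtain ⟨G, N, hN, hfrN, hNV, hGN, hGf, hGd⟩ := hbl ((W : Set R) \ ⋃₀ s) hVo F
    (hF.continuousOn.mono sdiff_subset) (fun z hz => (hd z hz).trans_le (min_le_right _ _))
    (frontier A) hfrc (fun z hz => ⟨hAW (hAc.isClosed.frontier_subset hz), fun h => hz.2 (hsA h)⟩)
    hfrp
  have hAN : A ⊆ interior A ∪ N := by
    intro z hz
    by_cases hzi : z ∈ interior A
    · exact Or.inl hzi
    · exact Or.inr (hfrN ⟨subset_closure hz, hzi⟩)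
  classical
  set g0 : R → X := fun z => if z ∈ A then F z else G z with hg0
  have hg0F : ∀ z ∈ interior A ∪ N, g0 z = F z := by
    rintro z (hz | hz)
    · exact if_pos (interior_subset hz)
    · by_cases hzA : z ∈ A
      · exact if_pos hzA
      · rw [hg0]
        show (if z ∈ A then F z else G z) = F z
        rw [if_neg hzA, hGN z hz]
  have hg0G : ∀ z ∉ A, g0 z = G z := fun z hz => if_neg hz
  have hopen1 : IsOpen (interior A ∪ N) := isOpen_interior.union hN
  have hsub1 : interior A ∪ N ⊆ (W : Set R) :=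
    union_subset (interior_subset.trans hAW) (hNV.trans sdiff_subset)
  have hcont : Continuous g0 := by
    rw [continuous_iff_continuousAt]
    intro z
    by_cases hz : z ∈ A
    · have hz1 := hAN hz
      have h1 : ContinuousAt F z :=
        (hF.continuousOn z (hsub1 hz1)).continuousAt (W.isOpen.mem_nhds (hsub1 hz1))
      exact h1.congr (Filter.eventually_of_mem (hopen1.mem_nhds hz1) fun w hw => (hg0F w hw).symm)
    · exact G.continuous.continuousAt.congr
        (Filter.eventually_of_mem (hAc.isClosed.isOpen_compl.mem_nhds hz)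
          fun w hw => (hg0G w hw).symm)
  have hGoff : ∀ z ∉ C, g0 z = f z := by
    intro z hz
    rw [hg0G z fun h => hz (Or.inl h)]
    refine hGf z fun q hq hzq => hz (Or.inr ?_)
    exact mem_biUnion hq (subset_closure hzq)
  have hCo : IsOpen Cᶜ := hCc.isClosed.isOpen_compl
  have hhol1 : HolOn E g0 (interior A ∪ N) := by
    refine MDifferentiableOn.congr (hF.mono hsub1) fun z hz => hg0F z hz
  have hhol2 : HolOn E g0 ((U : Set R) ∩ Cᶜ) := by
    refine MDifferentiableOn.congr (hf.mono inter_subset_left) fun z hz => hGoff z hz.2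
  have hUo : IsOpen ((U : Set R) ∩ Cᶜ) := U.isOpen.inter hCo
  have hΛC : ∀ l ∈ Λ, l ∈ A ∨ l ∉ C := by
    intro l hl
    by_cases hlA : l ∈ A
    · exact Or.inl hlA
    · refine Or.inr ?_
      rintro (h | h)
      · exact hlA h
      · obtain ⟨q, hq, hlq⟩ := mem_iUnion₂.1 h
        exact (hpP q hq).2.2.2.2.1 hlq hl
  refine ⟨⟨g0, hcont⟩, ⟨(interior A ∪ N) ∪ ((U : Set R) ∩ Cᶜ), hopen1.union hUo⟩, s, ?_, ?_, ?_,
    hGoff, hs, ?_, ?_⟩
  · show K ∪ L ∪ Λ ⊆ (interior A ∪ N) ∪ ((U : Set R) ∩ Cᶜ)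
    rintro z ((hz | hz) | hz)
    · exact Or.inl (Or.inl (hA0A (hTA0 (Or.inl hz))))
    · exact Or.inl (hAN (Or.inr (hLb hz)))
    · rcases hΛC z hz with h | h
      · exact Or.inl (hAN h)
      · exact Or.inr ⟨hΛU hz, h⟩
  · exact holOn_union hopen1 hUo hhol1 hhol2
  · intro l hl
    rcases hΛC l hl with h | h
    · have hlA0 : l ∈ interior A0 := hΛA ⟨hl, h⟩
      have hl2 : l ∈ Λ ∩ A0 := ⟨hl, interior_subset hlA0⟩
      refine jetEq_mono (hkk l hl2) (jetEq_congr ?_ Filter.EventuallyEq.rfl (hj l hl2))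
      exact Filter.eventually_of_mem (isOpen_interior.mem_nhds (hA0A hlA0))
        fun w hw => hg0F w (Or.inl hw)
    · refine jetEq_congr ?_ Filter.EventuallyEq.rfl (jetEq_refl _ f l)
      exact Filter.eventually_of_mem (hCo.mem_nhds h) fun w hw => hGoff w hw
  · intro D hD
    refine ⟨((hs1 D hD).1.trans interior_subset).trans subset_union_left, ?_, ?_⟩
    · exact (hs1 D hD).2.1.mono_right fun z hz => interior_subset (hTA0 (Or.inl hz))
    · intro z hz z' hz'
      exact ((hs1 D hD).2.2 z hz z' hz').trans_le (min_le_left _ _)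
  · intro z hz
    show dist (g0 z) (f z) < ε
    by_cases hzA : z ∈ A
    · rw [hg0F z (hAN hzA)]
      exact (hd z ⟨hAW hzA, hz⟩).trans_le (min_le_left _ _)
    · rw [hg0G z hzA]
      exact hGd z

end

end Pool.Agent.W_4d259d_h80
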